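import Pool.Agent.CPT.HF

/-!
# Sanity check: the circuit value problem on ordered structures

A NAND circuit is a linearly ordered finite set `V` of gates with a relation `E`; the inputs of the
gate `v` are the gates `u < v` with `E u v`, and the value of `v` is true iff some input is false.
(Evaluating such circuits is complete for P.) The value of the last gate is definable by a term of
choiceless polynomial time, uniformly, with a linear bound for the iteration. The iteration here is
not monotone; it is genuinely sequential.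
-/

set_option autoImplicit false

namespace Pool.Agent.CPTS.Circ

open Finset Classical Pool.Agent.CPT

/-- the vocabulary of ordered circuits: two binary relations -/
def CiV : Voc := ⟨Bool, fun _ => 2⟩

/-- an ordered circuit as a structure: `true` is the order, `false` are the wires -/
def ciStr {V : Type} (lt E : V → V → Prop) : Str CiV V
  | true, x => lt (x (0 : Fin 2)) (x (1 : Fin 2))
  | false, x => E (x (0 : Fin 2)) (x (1 : Fin 2))

/-- `s < t` -/
def ltT (i j : ℕ) : Tm CiV := .rel true (fun k : Fin 2 => .var (if k = 0 then i else j))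

/-- there is a wire from `s` to `t` -/
def wiT (i j : ℕ) : Tm CiV := .rel false (fun k : Fin 2 => .var (if k = 0 then i else j))

/-- in the context `v :: X :: ρ`: the inputs of `v` which are not in `X` -/
def inT : Tm CiV := .comp (.var 0) .atoms
  (.and (ltT 0 1) (.and (wiT 0 1) (.neg (.mem (.var 0) (.var 2)))))

/-- in the context `X :: ρ`: the gates with an input that is not in `X` -/
def nandT : Tm CiV := .comp (.var 0) .atoms inT

/-- the set of all true gates -/
def trueT : Tm CiV := .iter nandT

/-- in the context `v :: ρ`: the gates above `v` -/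
def upT : Tm CiV := .comp (.var 0) .atoms (ltT 1 0)

/-- the set of all last gates -/
def lastT : Tm CiV := .comp (.var 0) .atoms (.neg upT)

/-- the last gate is true -/
def circT : Tm CiV := .mem (.uniq lastT) trueT

variable {V : Type} [Fintype V]

/-- a set of vertices as an object -/
noncomputable def enc (A : Finset V) : HF V := HF.mk (A.image HF.atom)

omit [Fintype V] in
theorem enc_inj {A B : Finset V} (h : enc A = enc B) : A = B := by
  have h1 := HF.mk_inj h
  exact Finset.image_injective (fun _ _ h => HF.atom_inj h) h1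

omit [Fintype V] in
theorem ord_ne : (HF.ord 1 : HF V) ≠ HF.ord 0 := fun h => by
  have := HF.ord_inj h
  omega

omit [Fintype V] in
theorem tv_ne {p : Prop} : (HF.tv p : HF V) ≠ HF.ord 0 ↔ p := by
  unfold HF.tv
  split_ifs with h
  · exact iff_of_true ord_ne h
  · exact iff_of_false (fun h' => h' rfl) h

omit [Fintype V] in
theorem tv_eq {p : Prop} : (HF.tv p : HF V) = HF.ord 1 ↔ p := by
  unfold HF.tv
  split_ifs with h
  · exact iff_of_true rfl h
  · exact iff_of_false (fun h' => ord_ne h'.symm) h

theorem eval_comp {Γ : Voc} (S : Str Γ V) (a b : ℕ) (t c : Tm Γ) (ρ : List (HF V)) (A : Finset V)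
    (ht : eval univ S a b t ρ = enc A) :
    eval univ S a b (.comp (.var 0) t c) ρ =
      enc (A.filter (fun w => eval univ S a b c (HF.atom w :: ρ) ≠ HF.ord 0)) := by
  show HF.mk (((HF.elems (eval univ S a b t ρ)).filter
      (fun x => eval univ S a b c (x :: ρ) ≠ HF.ord 0)).image (fun x => x)) = _
  rw [ht]
  unfold enc
  rw [HF.elems_mk, Finset.image_id', Finset.filter_image]

theorem size_enc (A : Finset V) : HF.size (enc A) ≤ Fintype.card V + 1 := by
  rw [HF.size_eq]
  unfold enc
  rw [HF.tc_mk]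
  refine (Finset.card_insert_le _ _).trans ?_
  have h : (A.image HF.atom).biUnion HF.tc = A.image HF.atom := by
    ext x
    simp only [Finset.mem_biUnion, Finset.mem_image]
    constructor
    · rintro ⟨y, ⟨z, hz, rfl⟩, hx⟩
      rw [HF.tc_atom, Finset.mem_singleton] at hx
      exact ⟨z, hz, hx.symm⟩
    · rintro ⟨z, hz, rfl⟩
      exact ⟨HF.atom z, ⟨z, hz, rfl⟩, by rw [HF.tc_atom, Finset.mem_singleton]⟩
  rw [h]
  have h1 : (A.image (HF.atom : V → HF V)).card ≤ A.card := Finset.card_image_le
  have h2 := Finset.card_le_univ A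
  omega

theorem eval_rel (S : Str CiV V) (a b : ℕ) (r : Bool) (i j : ℕ) (ρ : List (HF V)) (u v : V)
    (hi : ρ.getD i HF.emp = HF.atom u) (hj : ρ.getD j HF.emp = HF.atom v) :
    eval univ S a b (.rel r (fun k : Fin 2 => .var (if k = 0 then i else j))) ρ ≠ HF.ord 0 ↔
      S r ![u, v] := by
  show (HF.tv (∃ x : Fin 2 → V, (∀ k : Fin 2,
    ρ.getD (if k = 0 then i else j) HF.emp = HF.atom (x k)) ∧ S r x) : HF V) ≠ HF.ord 0 ↔ _
  rw [tv_ne]
  constructor
  · rintro ⟨x, hx, hS⟩
    have h0 : ρ.getD i HF.emp = HF.atom (x 0) := hx 0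
    have h1 : ρ.getD j HF.emp = HF.atom (x 1) := hx 1
    rw [hi] at h0
    rw [hj] at h1
    have hx' : x = ![u, v] := by
      funext k
      fin_cases k
      · exact (HF.atom_inj h0).symm
      · exact (HF.atom_inj h1).symm
    rw [← hx']
    exact hS
  · intro h
    refine ⟨![u, v], fun k => ?_, h⟩
    fin_cases k
    · exact hi
    · exact hj

/-- one round of the evaluation of all gates -/
noncomputable def rnd (lt E : V → V → Prop) (A : Finset V) : Finset V :=
  univ.filter (fun v => ∃ u, lt u v ∧ E u v ∧ u ∉ A)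

theorem mem_rnd (lt E : V → V → Prop) (A : Finset V) (v : V) :
    v ∈ rnd lt E A ↔ ∃ u, lt u v ∧ E u v ∧ u ∉ A := by
  rw [rnd, Finset.mem_filter]
  exact ⟨fun h => h.2, fun h => ⟨Finset.mem_univ _, h⟩⟩

omit [Fintype V] in
theorem ord0 : (HF.ord 0 : HF V) = enc ∅ := rfl

theorem eval_and {Γ : Voc} (S : Str Γ V) (a b : ℕ) (s t : Tm Γ) (ρ : List (HF V)) :
    eval univ S a b (.and s t) ρ ≠ HF.ord 0 ↔
      (eval univ S a b s ρ ≠ HF.ord 0 ∧ eval univ S a b t ρ ≠ HF.ord 0) := by
  show (HF.tv (eval univ S a b s ρ ≠ HF.ord 0 ∧ eval univ S a b t ρ ≠ HF.ord 0) : HF V) ≠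
    HF.ord 0 ↔ _
  rw [tv_ne]

theorem eval_neg {Γ : Voc} (S : Str Γ V) (a b : ℕ) (t : Tm Γ) (ρ : List (HF V)) :
    eval univ S a b (.neg t) ρ ≠ HF.ord 0 ↔ eval univ S a b t ρ = HF.ord 0 := by
  show (HF.tv (eval univ S a b t ρ = HF.ord 0) : HF V) ≠ HF.ord 0 ↔ _
  rw [tv_ne]

theorem eval_in (lt E : V → V → Prop) (a b : ℕ) (A : Finset V) (v : V) (ρ : List (HF V)) :
    eval univ (ciStr lt E) a b inT (HF.atom v :: enc A :: ρ) =
      enc (univ.filter (fun u => lt u v ∧ E u v ∧ u ∉ A)) := by
  unfold inT
  rw [eval_comp (ciStr lt E) a b .atoms _ _ univ rfl]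
  congr 1
  refine Finset.filter_congr fun u _ => ?_
  rw [eval_and, eval_and, eval_neg]
  refine and_congr ?_ (and_congr ?_ ?_)
  · exact eval_rel (ciStr lt E) a b true 0 1 (HF.atom u :: HF.atom v :: enc A :: ρ) u v rfl rfl
  · have h := eval_rel (ciStr lt E) a b false 0 1 (HF.atom u :: HF.atom v :: enc A :: ρ) u v rfl rfl
    have h2 : ciStr lt E false ![u, v] ↔ E u v := Iff.rfl
    exact h.trans h2
  · show (HF.tv (HF.atom u ∈ HF.elems (enc A)) : HF V) = HF.ord 0 ↔ u ∉ A
    rw [← not_iff_not, not_not]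
    have h := tv_ne (V := V) (p := HF.atom u ∈ HF.elems (enc A))
    rw [ne_eq] at h
    rw [h, enc, HF.elems_mk, Finset.mem_image]
    constructor
    · rintro ⟨w, hw, hwu⟩
      rw [← HF.atom_inj hwu]
      exact hw
    · intro hu
      exact ⟨u, hu, rfl⟩

theorem eval_nand (lt E : V → V → Prop) (a b : ℕ) (A : Finset V) (ρ : List (HF V)) :
    eval univ (ciStr lt E) a b nandT (enc A :: ρ) = enc (rnd lt E A) := by
  unfold nandT
  rw [eval_comp (ciStr lt E) a b .atoms _ _ univ rfl]
  unfold rnd
  congr 1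
  refine Finset.filter_congr fun v _ => ?_
  rw [eval_in, ord0]
  constructor
  · intro h1
    by_contra h2
    push Not at h2
    apply h1
    congr 1
    refine Finset.filter_eq_empty_iff.2 fun u _ h3 => ?_
    exact h3.2.2 (h2 u h3.1 h3.2.1)
  · rintro ⟨u, hu⟩ h1
    have h2 := enc_inj h1
    have h3 : u ∈ univ.filter (fun u => lt u v ∧ E u v ∧ u ∉ A) :=
      Finset.mem_filter.2 ⟨Finset.mem_univ _, hu⟩
    rw [h2] at h3
    exact Finset.notMem_empty u h3

theorem iterate_nand (lt E : V → V → Prop) (a b : ℕ) (ρ : List (HF V)) (j : ℕ) :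
    (fun x => eval univ (ciStr lt E) a b nandT (x :: ρ))^[j] HF.emp = enc ((rnd lt E)^[j] ∅) := by
  induction j with
  | zero => rfl
  | succ j ih =>
    rw [Function.iterate_succ_apply', Function.iterate_succ_apply', ih]
    exact eval_nand lt E a b _ ρ

section ordered

variable [LinearOrder V]

/-- the value of a gate -/
def val (E : V → V → Prop) : V → Prop :=
  (Finite.to_wellFoundedLT (α := V)).wf.fix
    (fun v ih => ∃ u, ∃ h : u < v, E u v ∧ ¬ ih u h)

theorem val_iff (E : V → V → Prop) (v : V) : val E v ↔ ∃ u, u < v ∧ E u v ∧ ¬ val E u := by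
  unfold val
  rw [WellFounded.fix_eq]
  constructor
  · rintro ⟨u, h, h1, h2⟩
    exact ⟨u, h, h1, h2⟩
  · rintro ⟨u, h, h1, h2⟩
    exact ⟨u, h, h1, h2⟩

/-- a fixed point of the rounds is the set of the true gates -/
theorem fix_eq (E : V → V → Prop) {A : Finset V} (h : rnd (· < ·) E A = A) :
    A = univ.filter (val E) := by
  have key : ∀ v : V, v ∈ A ↔ val E v := by
    intro v
    induction v using (Finite.to_wellFoundedLT (α := V)).wf.induction with
    | _ v ih =>
      rw [← h, mem_rnd, val_iff]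
      constructor
      · rintro ⟨u, h1, h2, h3⟩
        exact ⟨u, h1, h2, fun h4 => h3 ((ih u h1).2 h4)⟩
      · rintro ⟨u, h1, h2, h3⟩
        exact ⟨u, h1, h2, fun h4 => h3 ((ih u h1).1 h4)⟩
  ext v
  rw [key, Finset.mem_filter]
  exact ⟨fun h => ⟨Finset.mem_univ _, h⟩, fun h => h.2⟩

/-- after `j` rounds all gates with fewer than `j` gates below them are right -/
theorem rounds (E : V → V → Prop) (j : ℕ) (v : V) (hv : (univ.filter (· < v)).card < j) :
    v ∈ (rnd (· < ·) E)^[j] ∅ ↔ val E v := by
  induction j generalizing v with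
  | zero => exact absurd hv (Nat.not_lt_zero _)
  | succ j ih =>
    rw [Function.iterate_succ_apply', mem_rnd, val_iff]
    have h : ∀ u : V, u < v → (univ.filter (· < u)).card < j := by
      intro u hu
      have h1 : univ.filter (· < u) ⊂ univ.filter (· < v) := by
        rw [Finset.ssubset_iff_of_subset]
        · exact ⟨u, by simpa using hu, by simp⟩
        · intro w hw
          rw [Finset.mem_filter] at hw ⊢
          exact ⟨hw.1, hw.2.trans hu⟩
      have := Finset.card_lt_card h1
      omega
    constructor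
    · rintro ⟨u, h1, h2, h3⟩
      exact ⟨u, h1, h2, fun h4 => h3 ((ih u (h u h1)).2 h4)⟩
    · rintro ⟨u, h1, h2, h3⟩
      exact ⟨u, h1, h2, fun h4 => h3 ((ih u (h u h1)).1 h4)⟩

theorem rounds_all (E : V → V → Prop) :
    (rnd (· < ·) E)^[Fintype.card V] ∅ = univ.filter (val E) := by
  ext v
  rw [rounds, Finset.mem_filter]
  · exact ⟨fun h => ⟨Finset.mem_univ _, h⟩, fun h => h.2⟩
  · have h : univ.filter (· < v) ⊂ univ :=
      (Finset.ssubset_iff_of_subset (Finset.filter_subset _ _)).2 ⟨v, Finset.mem_univ _, by simp⟩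
    exact Finset.card_lt_card h

theorem rnd_val (E : V → V → Prop) :
    rnd (· < ·) E (univ.filter (val E)) = univ.filter (val E) := by
  ext v
  rw [mem_rnd, Finset.mem_filter, val_iff]
  simp

theorem eval_true (E : V → V → Prop) {a b : ℕ} (ha : Fintype.card V ≤ a)
    (hb : Fintype.card V + 1 ≤ b) (ρ : List (HF V)) :
    eval univ (ciStr (· < ·) E) a b trueT ρ = enc (univ.filter (val E)) := by
  show HF.itr a b (fun x => eval univ (ciStr (· < ·) E) a b nandT (x :: ρ)) = _
  have hfun : ∀ A : Finset V, (fun x => eval univ (ciStr (· < ·) E) a b nandT (x :: ρ))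
      (enc A) = enc (rnd (· < ·) E A) := fun A => eval_nand _ E a b A ρ
  have hex : ∃ i : ℕ, i ≤ a ∧ (fun x => eval univ (ciStr (· < ·) E) a b nandT (x :: ρ))
      ((fun x => eval univ (ciStr (· < ·) E) a b nandT (x :: ρ))^[i] HF.emp) =
      (fun x => eval univ (ciStr (· < ·) E) a b nandT (x :: ρ))^[i] HF.emp ∧
      ∀ j ≤ i, HF.size ((fun x => eval univ (ciStr (· < ·) E) a b nandT
        (x :: ρ))^[j] HF.emp) ≤ b := by
    refine ⟨Fintype.card V, ha, ?_, ?_⟩
    · rw [iterate_nand, hfun, rounds_all, rnd_val]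
    · intro j _
      rw [iterate_nand]
      exact (size_enc _).trans hb
  unfold HF.itr
  rw [dif_pos hex]
  have hspec := Nat.find_spec hex
  set n := Nat.find hex
  rw [iterate_nand]
  congr 1
  apply fix_eq
  have h1 := hspec.2.1
  rw [iterate_nand, hfun] at h1
  exact enc_inj h1

theorem eval_up (E : V → V → Prop) (a b : ℕ) (v : V) (ρ : List (HF V)) :
    eval univ (ciStr (· < ·) E) a b upT (HF.atom v :: ρ) = enc (univ.filter (v < ·)) := by
  unfold upT
  rw [eval_comp (ciStr (· < ·) E) a b .atoms _ _ univ rfl]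
  congr 1
  refine Finset.filter_congr fun u _ => ?_
  exact eval_rel (ciStr (· < ·) E) a b true 1 0 (HF.atom u :: HF.atom v :: ρ) v u rfl rfl

theorem eval_last (E : V → V → Prop) (a b : ℕ) (ρ : List (HF V)) (m : V) (hm : ∀ v, v ≤ m) :
    eval univ (ciStr (· < ·) E) a b lastT ρ = enc {m} := by
  unfold lastT
  rw [eval_comp (ciStr (· < ·) E) a b .atoms _ _ univ rfl]
  congr 1
  ext v
  rw [Finset.mem_filter, eval_neg, eval_up, Finset.mem_singleton, ord0]
  constructor
  · rintro ⟨_, h⟩
    have h1 := enc_inj h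
    by_contra hne
    have h2 : m ∈ univ.filter (v < ·) :=
      Finset.mem_filter.2 ⟨Finset.mem_univ _, lt_of_le_of_ne (hm v) hne⟩
    rw [h1] at h2
    exact Finset.notMem_empty m h2
  · rintro rfl
    refine ⟨Finset.mem_univ _, ?_⟩
    congr 1
    exact Finset.filter_eq_empty_iff.2 fun u _ => not_lt.2 (hm u)

omit [LinearOrder V] [Fintype V] in
theorem uq_enc (m : V) : HF.uq (enc {m}) = HF.atom m := by
  have h0 : HF.elems (enc {m}) = {HF.atom m} := by
    rw [enc, HF.elems_mk, Finset.image_singleton]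
  have h : ∃ y, HF.elems (enc {m}) = {y} := ⟨_, h0⟩
  unfold HF.uq
  rw [dif_pos h]
  have h1 : ({HF.atom m} : Finset (HF V)) = {h.choose} := h0.symm.trans h.choose_spec
  exact (Finset.singleton_injective h1).symm

/-- the value of the last gate is definable, with a linear bound for the iteration -/
theorem accepts_circT (E : V → V → Prop) {a b : ℕ} (ha : Fintype.card V ≤ a)
    (hb : Fintype.card V + 1 ≤ b) (m : V) (hm : ∀ v, v ≤ m) :
    Accepts (ciStr (· < ·) E) circT a b ↔ val E m := by
  show (HF.tv (HF.uq (eval univ (ciStr (· < ·) E) a b lastT []) ∈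
    HF.elems (eval univ (ciStr (· < ·) E) a b trueT [])) : HF V) = HF.ord 1 ↔ _
  rw [tv_eq, eval_last E a b [] m hm, uq_enc, eval_true E ha hb, enc, HF.elems_mk, Finset.mem_image]
  constructor
  · rintro ⟨w, hw, hwm⟩
    rw [← HF.atom_inj hwm]
    exact (Finset.mem_filter.1 hw).2
  · intro h
    exact ⟨m, Finset.mem_filter.2 ⟨Finset.mem_univ _, h⟩, rfl⟩

end ordered

/-- there is one term and one polynomial bound (for the number of steps and for the size) that
evaluate all ordered NAND circuits: the term accepts iff the last gate is true -/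
theorem circuit_value_definable : ∃ t : Tm CiV, ∃ p : Polynomial ℕ, ∀ (V : Type) [Fintype V]
    [LinearOrder V] (m : V) (_ : ∀ v, v ≤ m) (E : V → V → Prop) (a b : ℕ),
      p.eval (Fintype.card V) ≤ a → p.eval (Fintype.card V) ≤ b →
        (Accepts (ciStr (· < ·) E) t a b ↔ val E m) := by
  refine ⟨circT, Polynomial.X + 1, fun V _ _ m hm E a b ha hb => accepts_circT E ?_ ?_ m hm⟩
  · exact (Nat.le_succ _).trans (by simpa using ha)
  · simpa using hb

end Pool.Agent.CPTS.Circ
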