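import Pool.Agent.CPT.HF

/-!
# Sanity check: connectivity of graphs is definable in choiceless polynomial time
-/

set_option autoImplicit false

namespace Pool.Agent.CPTS

open Finset Classical Pool.Agent.CPT

/-- disjunction -/
def orT {Γ : Voc} (s t : Tm Γ) : Tm Γ := .neg (.and (.neg s) (.neg t))

/-- the elements of the variable `1` that are adjacent to the variable `0` -/
def nbT : Tm GrV := .comp (.var 0) (.var 1) (.rel (0 : Fin 2) (fun i : Fin 2 => .var i.val))

/-- in the context `X :: u :: ρ`: the set of all atoms `w` with `w = u` or adjacent to an element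
of `X` -/
def stepT : Tm GrV := .comp (.var 0) .atoms (orT (.eq (.var 0) (.var 2)) nbT)

/-- in the context `u :: ρ`: the connected component of `u` -/
def reachT : Tm GrV := .iter stepT

/-- connectivity -/
def connT : Tm GrV := .eq (.comp (.var 0) .atoms (.eq reachT .atoms)) .atoms

variable {V : Type} [Fintype V]

/-- a set of vertices as an object -/
noncomputable def enc (A : Finset V) : HF V := HF.mk (A.image HF.atom)

omit [Fintype V] in
theorem enc_inj {A B : Finset V} (h : enc A = enc B) : A = B := by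
  have h1 := HF.mk_inj h
  exact Finset.image_injective (fun _ _ h => HF.atom_inj h) h1

omit [Fintype V] in
theorem emp_eq : (HF.emp : HF V) = enc ∅ := rfl

omit [Fintype V] in
theorem ord_ne : (HF.ord 1 : HF V) ≠ HF.ord 0 := fun h => by
  have := HF.ord_inj h
  omega

omit [Fintype V] in
theorem tv_ne {p : Prop} : (HF.tv p : HF V) ≠ HF.ord 0 ↔ p := by
  unfold HF.tv
  split_ifs with h
  · exact iff_of_true ord_ne h
  · exact iff_of_false (fun h' => h' rfl) h

omit [Fintype V] in
theorem tv_eq {p : Prop} : (HF.tv p : HF V) = HF.ord 1 ↔ p := by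
  unfold HF.tv
  split_ifs with h
  · exact iff_of_true rfl h
  · exact iff_of_false (fun h' => ord_ne h'.symm) h

theorem eval_or {Γ : Voc} (S : Str Γ V) (m b : ℕ) (s t : Tm Γ) (ρ : List (HF V)) :
    eval univ S m b (orT s t) ρ ≠ HF.ord 0 ↔
      (eval univ S m b s ρ ≠ HF.ord 0 ∨ eval univ S m b t ρ ≠ HF.ord 0) := by
  show (HF.tv (HF.tv (HF.tv (eval univ S m b s ρ = HF.ord 0) ≠ HF.ord 0 ∧
    HF.tv (eval univ S m b t ρ = HF.ord 0) ≠ HF.ord 0) = HF.ord 0) : HF V) ≠ HF.ord 0 ↔ _
  rw [tv_ne, tv_ne, tv_ne]
  have h := tv_ne (V := V) (p := eval univ S m b s ρ = HF.ord 0 ∧ eval univ S m b t ρ = HF.ord 0)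
  rw [← not_iff_not, not_not] at h
  rw [h]
  tauto

/-- one step of the search -/
noncomputable def stp (r : V → V → Prop) (a : V) (A : Finset V) : Finset V :=
  univ.filter (fun w => w = a ∨ ∃ z ∈ A, r z w)

theorem eval_atoms {Γ : Voc} (S : Str Γ V) (m b : ℕ) (ρ : List (HF V)) :
    eval univ S m b .atoms ρ = enc univ := rfl

theorem eval_comp {Γ : Voc} (S : Str Γ V) (m b : ℕ) (t c : Tm Γ) (ρ : List (HF V)) (A : Finset V)
    (ht : eval univ S m b t ρ = enc A) :
    eval univ S m b (.comp (.var 0) t c) ρ =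
      enc (A.filter (fun w => eval univ S m b c (HF.atom w :: ρ) ≠ HF.ord 0)) := by
  show HF.mk (((HF.elems (eval univ S m b t ρ)).filter
      (fun x => eval univ S m b c (x :: ρ) ≠ HF.ord 0)).image (fun x => x)) = _
  rw [ht]
  unfold enc
  rw [HF.elems_mk, Finset.image_id', Finset.filter_image]

theorem eval_nb (r : V → V → Prop) (c : V → ℕ) (m b : ℕ) (A : Finset V) (w : V) (ρ : List (HF V)) :
    eval univ (grStr r c) m b nbT (HF.atom w :: enc A :: ρ) = enc (A.filter (fun z => r z w)) := by
  unfold nbT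
  rw [eval_comp (grStr r c) m b (.var 1) _ (HF.atom w :: enc A :: ρ) A rfl]
  congr 1
  refine Finset.filter_congr fun z _ => ?_
  show (HF.tv (∃ x : Fin 2 → V, (∀ i : Fin 2,
    eval univ (grStr r c) m b (.var i.val) (HF.atom z :: HF.atom w :: enc A :: ρ) = HF.atom (x i)) ∧
      r (x 0) (x 1)) : HF V) ≠ HF.ord 0 ↔ r z w
  rw [tv_ne]
  constructor
  · rintro ⟨x, hx, hr⟩
    have h0 : z = x 0 := HF.atom_inj (hx 0)
    have h1 : w = x 1 := HF.atom_inj (hx 1)
    rw [h0, h1]
    exact hr
  · intro h
    refine ⟨![z, w], fun i => ?_, h⟩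
    fin_cases i
    · rfl
    · rfl

theorem eval_step (r : V → V → Prop) (c : V → ℕ) (m b : ℕ) (A : Finset V) (a : V) (ρ : List (HF V)) :
    eval univ (grStr r c) m b stepT (enc A :: HF.atom a :: ρ) = enc (stp r a A) := by
  unfold stepT
  rw [eval_comp (grStr r c) m b .atoms _ _ univ rfl]
  unfold stp
  congr 1
  refine Finset.filter_congr fun w _ => ?_
  rw [eval_or]
  refine or_congr ?_ ?_
  · show (HF.tv ((HF.atom w : HF V) = HF.atom a) : HF V) ≠ HF.ord 0 ↔ w = a
    rw [tv_ne]
    exact ⟨fun h => HF.atom_inj h, fun h => by rw [h]⟩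
  · rw [eval_nb]
    have h : (HF.ord 0 : HF V) = enc ∅ := rfl
    rw [h]
    constructor
    · intro h1
      by_contra h2
      push Not at h2
      apply h1
      congr 1
      exact Finset.filter_eq_empty_iff.2 fun z hz => h2 z hz
    · rintro ⟨z, hz, hr⟩ h1
      have h2 := enc_inj h1
      have h3 : z ∈ A.filter (fun z => r z w) := Finset.mem_filter.2 ⟨hz, hr⟩
      rw [h2] at h3
      exact Finset.notMem_empty z h3

theorem iterate_eq (r : V → V → Prop) (c : V → ℕ) (m b : ℕ) (a : V) (ρ : List (HF V)) (j : ℕ) :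
    (fun x => eval univ (grStr r c) m b stepT (x :: HF.atom a :: ρ))^[j] HF.emp =
      enc ((stp r a)^[j] ∅) := by
  induction j with
  | zero => rfl
  | succ j ih =>
    rw [Function.iterate_succ_apply', Function.iterate_succ_apply', ih]
    exact eval_step r c m b _ a ρ

theorem stp_mono (r : V → V → Prop) (a : V) {A B : Finset V} (h : A ⊆ B) :
    stp r a A ⊆ stp r a B := by
  intro w hw
  rw [stp, Finset.mem_filter] at hw ⊢
  refine ⟨Finset.mem_univ _, ?_⟩
  rcases hw.2 with h1 | ⟨z, hz, hr⟩
  · exact Or.inl h1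
  · exact Or.inr ⟨z, h hz, hr⟩

theorem iter_mono (r : V → V → Prop) (a : V) (j : ℕ) :
    (stp r a)^[j] ∅ ⊆ (stp r a)^[j + 1] ∅ := by
  induction j with
  | zero => exact Finset.empty_subset _
  | succ j ih =>
    rw [Function.iterate_succ_apply', Function.iterate_succ_apply' _ (j + 1)]
    exact stp_mono r a ih

/-- a fixed point is reached after at most `|V|` steps -/
theorem exists_fix (r : V → V → Prop) (a : V) :
    ∃ i ≤ Fintype.card V, stp r a ((stp r a)^[i] ∅) = (stp r a)^[i] ∅ := by
  by_contra h
  push Not at h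
  have h1 : ∀ i ≤ Fintype.card V + 1, i ≤ ((stp r a)^[i] ∅).card := by
    intro i
    induction i with
    | zero => intro _; exact Nat.zero_le _
    | succ i ih =>
      intro hi
      have h2 := ih (by omega)
      have h3 := h i (by omega)
      have h4 := iter_mono r a i
      rw [Function.iterate_succ_apply'] at h4 ⊢
      have h5 : (stp r a)^[i] ∅ ⊂ stp r a ((stp r a)^[i] ∅) :=
        h4.ssubset_of_ne (fun h' => h3 h'.symm)
      have := Finset.card_lt_card h5
      omega
  have h2 := h1 _ le_rfl
  have h3 := Finset.card_le_univ ((stp r a)^[Fintype.card V + 1] ∅)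
  omega

theorem card_tc_enc (A : Finset V) : (HF.tc (enc A)).card ≤ Fintype.card V + 1 := by
  unfold enc
  rw [HF.tc_mk]
  refine (Finset.card_insert_le _ _).trans ?_
  have h : (A.image HF.atom).biUnion HF.tc = A.image HF.atom := by
    ext x
    simp only [Finset.mem_biUnion, Finset.mem_image]
    constructor
    · rintro ⟨y, ⟨z, hz, rfl⟩, hx⟩
      rw [HF.tc_atom, Finset.mem_singleton] at hx
      exact ⟨z, hz, hx.symm⟩
    · rintro ⟨z, hz, rfl⟩
      exact ⟨HF.atom z, ⟨z, hz, rfl⟩, by rw [HF.tc_atom, Finset.mem_singleton]⟩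
  rw [h]
  have h1 : (A.image (HF.atom : V → HF V)).card ≤ A.card := Finset.card_image_le
  have h2 := Finset.card_le_univ A
  omega

theorem eval_reach (G : SimpleGraph V) (c : V → ℕ) {m b : ℕ} (hm : Fintype.card V ≤ m)
    (hb : Fintype.card V + 1 ≤ b) (a : V)
    (ρ : List (HF V)) : eval univ (grStr G.Adj c) m b reachT (HF.atom a :: ρ) =
      enc (univ.filter (fun w => G.Reachable a w)) := by
  show HF.itr m b (fun x => eval univ (grStr G.Adj c) m b stepT (x :: HF.atom a :: ρ)) = _
  have hfun : ∀ A : Finset V, (fun x => eval univ (grStr G.Adj c) m b stepT (x :: HF.atom a :: ρ))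
      (enc A) = enc (stp G.Adj a A) := fun A => eval_step G.Adj c m b A a ρ
  have hex : ∃ i : ℕ, i ≤ m ∧ (fun x => eval univ (grStr G.Adj c) m b stepT (x :: HF.atom a :: ρ))
      ((fun x => eval univ (grStr G.Adj c) m b stepT (x :: HF.atom a :: ρ))^[i] HF.emp) =
      (fun x => eval univ (grStr G.Adj c) m b stepT (x :: HF.atom a :: ρ))^[i] HF.emp ∧
      ∀ j ≤ i, (HF.tc ((fun x => eval univ (grStr G.Adj c) m b stepT
        (x :: HF.atom a :: ρ))^[j] HF.emp)).card ≤ b := by
    obtain ⟨i, hi, hfix⟩ := exists_fix G.Adj a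
    refine ⟨i, by omega, ?_, ?_⟩
    · rw [iterate_eq, hfun, hfix]
    · intro j _
      rw [iterate_eq]
      exact (card_tc_enc _).trans hb
  rw [HF.itr_def, dif_pos hex]
  have hspec := Nat.find_spec hex
  set n := Nat.find hex
  rw [iterate_eq]
  congr 1
  have hfix : stp G.Adj a ((stp G.Adj a)^[n] ∅) = (stp G.Adj a)^[n] ∅ := by
    have h1 := hspec.2.1
    rw [iterate_eq, hfun] at h1
    exact enc_inj h1
  refine Finset.Subset.antisymm ?_ ?_
  · have h1 : ∀ j, (stp G.Adj a)^[j] ∅ ⊆ univ.filter (fun w => G.Reachable a w) := by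
      intro j
      induction j with
      | zero => exact Finset.empty_subset _
      | succ j ih =>
        rw [Function.iterate_succ_apply']
        intro w hw
        rw [stp, Finset.mem_filter] at hw
        rw [Finset.mem_filter]
        refine ⟨Finset.mem_univ _, ?_⟩
        rcases hw.2 with h1 | ⟨z, hz, hr⟩
        · rw [h1]
        · exact (Finset.mem_filter.1 (ih hz)).2.trans (SimpleGraph.Adj.reachable hr)
    exact h1 n
  · intro w hw
    have h1 := (Finset.mem_filter.1 hw).2
    have h0 : a ∈ (stp G.Adj a)^[n] ∅ := by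
      rw [← hfix, stp, Finset.mem_filter]
      exact ⟨Finset.mem_univ _, Or.inl rfl⟩
    obtain ⟨p⟩ := h1
    have key : ∀ (u v : V), G.Walk u v → u ∈ (stp G.Adj a)^[n] ∅ → v ∈ (stp G.Adj a)^[n] ∅ := by
      intro u v p
      induction p with
      | nil => exact fun h => h
      | cons h _ ih =>
        intro hu
        apply ih
        rw [← hfix, stp, Finset.mem_filter]
        exact ⟨Finset.mem_univ _, Or.inr ⟨_, hu, h⟩⟩
    exact key a w p h0

/-- connectivity is definable, with a linear bound for the number of steps and for the size -/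
theorem accepts_connT [Nonempty V] (G : SimpleGraph V) (c : V → ℕ) {m b : ℕ} (hm : Fintype.card V ≤ m)
    (hb : Fintype.card V + 1 ≤ b) :
    Accepts (grStr G.Adj c) connT m b ↔ G.Connected := by
  show (HF.tv (eval univ (grStr G.Adj c) m b (.comp (.var 0) .atoms (.eq reachT .atoms)) [] =
    eval univ (grStr G.Adj c) m b .atoms []) : HF V) = HF.ord 1 ↔ G.Connected
  rw [tv_eq, eval_atoms, eval_comp (grStr G.Adj c) m b .atoms _ _ univ rfl]
  have h1 : ∀ w : V, eval univ (grStr G.Adj c) m b (.eq reachT .atoms) (HF.atom w :: []) ≠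
      HF.ord 0 ↔ ∀ v : V, G.Reachable w v := by
    intro w
    show (HF.tv (eval univ (grStr G.Adj c) m b reachT (HF.atom w :: []) =
      eval univ (grStr G.Adj c) m b .atoms (HF.atom w :: [])) : HF V) ≠ HF.ord 0 ↔ _
    rw [tv_ne, eval_atoms, eval_reach G c hm hb]
    constructor
    · intro h v
      have h2 := enc_inj h
      have h3 : v ∈ univ.filter (fun v => G.Reachable w v) := by
        rw [h2]; exact Finset.mem_univ v
      exact (Finset.mem_filter.1 h3).2
    · intro h
      congr 1
      exact Finset.filter_true_of_mem fun v _ => h v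
  constructor
  · intro h
    have h2 := enc_inj h
    refine { preconnected := ?_, nonempty := inferInstance }
    intro w
    have h3 : w ∈ univ.filter (fun w => eval univ (grStr G.Adj c) m b (.eq reachT .atoms)
        (HF.atom w :: []) ≠ HF.ord 0) := by
      rw [h2]; exact Finset.mem_univ w
    exact (h1 w).1 (Finset.mem_filter.1 h3).2
  · intro h
    congr 1
    exact Finset.filter_true_of_mem fun w _ => (h1 w).2 fun v => h.preconnected w v

/-- Connectivity of finite graphs is definable in choiceless polynomial time: one term decides it,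
for all colourings, if at least `n` steps and stages of size `n + 1` are allowed (`n` is the number
of vertices). -/
theorem connectivity_definable : ∃ t : Tm GrV, ∀ (V : Type) [Fintype V] [Nonempty V]
    (G : SimpleGraph V) (c : V → ℕ) (a b : ℕ), Fintype.card V ≤ a → Fintype.card V + 1 ≤ b →
      (Accepts (grStr G.Adj c) t a b ↔ G.Connected) :=
  ⟨connT, fun _ _ _ G c _ _ ha hb => accepts_connT G c ha hb⟩

end Pool.Agent.CPTS
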