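import Pool.Agent.CPT.At

/-!
# Sanity check: first-order logic with counting quantifiers embeds in choiceless polynomial time

Every first-order formula (with quantifiers `there are at least m elements x with ...`) over any
relational vocabulary is defined by a BGS term, with any bounds `a` and `b` for the iterations (none is
used).
-/

set_option autoImplicit false

namespace Pool.Agent.CPTS

open Pool.Agent.CPT Finset Classical

/-- first-order formulas with counting quantifiers and the free variables `0, …, n - 1` -/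
inductive FO (Γ : Voc) : ℕ → Type
  /-- `x_i = x_j` -/
  | eq {n : ℕ} (i j : Fin n) : FO Γ n
  /-- an atomic formula -/
  | rel {n : ℕ} (r : Γ.R) (v : Fin (Γ.ar r) → Fin n) : FO Γ n
  /-- negation -/
  | neg {n : ℕ} (φ : FO Γ n) : FO Γ n
  /-- conjunction -/
  | and {n : ℕ} (φ ψ : FO Γ n) : FO Γ n
  /-- existential quantification of the variable `0` -/
  | ex {n : ℕ} (φ : FO Γ (n + 1)) : FO Γ n
  /-- there are at least `m` values of the variable `0` with `φ` -/
  | exge {n : ℕ} (m : ℕ) (φ : FO Γ (n + 1)) : FO Γ n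

/-- satisfaction -/
def Sat {Γ : Voc} {V : Type} (S : Str Γ V) : {n : ℕ} → FO Γ n → (Fin n → V) → Prop
  | _, .eq i j, x => x i = x j
  | _, .rel r v, x => S r (fun k => x (v k))
  | _, .neg φ, x => ¬ Sat S φ x
  | _, .and φ ψ, x => Sat S φ x ∧ Sat S ψ x
  | _, .ex φ, x => ∃ v, Sat S φ (Fin.cons v x)
  | _, .exge m φ, x => (m : ℕ∞) ≤ Set.encard {v | Sat S φ (Fin.cons v x)}

/-- a closed term for the ordinal `m` -/
def numT (Γ : Voc) : ℕ → Tm Γ
  | 0 => .empty
  | m + 1 => .union (.pair (numT Γ m) (.pair (numT Γ m) (numT Γ m)))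

/-- `s ≤ t` for ordinals -/
def leT {Γ : Voc} (s t : Tm Γ) : Tm Γ := .neg (.and (.neg (.eq s t)) (.neg (.mem s t)))

/-- the term of a formula -/
def tr {Γ : Voc} : {n : ℕ} → FO Γ n → Tm Γ
  | _, .eq i j => .eq (.var i) (.var j)
  | _, .rel r v => .rel r (fun k => .var (v k))
  | _, .neg φ => .neg (tr φ)
  | _, .and φ ψ => .and (tr φ) (tr ψ)
  | _, .ex φ => .neg (.neg (.comp (.var 0) .atoms (tr φ)))
  | _, .exge m φ => leT (numT Γ m) (.card (.comp (.var 0) .atoms (tr φ)))

variable {Γ : Voc} {V : Type}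

theorem tv_eq_one {A : Type} (p : Prop) : (HF.tv p : HF A) = HF.ord 1 ↔ p := by
  unfold HF.tv
  by_cases h : p
  · simp [h]
  · rw [if_neg h]
    exact ⟨fun h1 => absurd (HF.ord_inj h1) (by norm_num), fun h1 => absurd h1 h⟩

theorem tv_eq_zero {A : Type} (p : Prop) : (HF.tv p : HF A) = HF.ord 0 ↔ ¬ p := by
  unfold HF.tv
  by_cases h : p
  · rw [if_pos h]
    exact ⟨fun h1 => absurd (HF.ord_inj h1) (by norm_num), fun h1 => absurd h h1⟩
  · simp [h]

theorem tv_congr {A : Type} {p q : Prop} (h : p ↔ q) : (HF.tv p : HF A) = HF.tv q := by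
  rw [propext h]

theorem eval_numT (U : Finset V) (S : Str Γ V) (a b : ℕ) (ρ : List (HF V)) (m : ℕ) :
    eval U S a b (numT Γ m) ρ = HF.ord m := by
  induction m with
  | zero => rfl
  | succ m ih =>
    show HF.un (HF.pr (eval U S a b (numT Γ m) ρ)
      (HF.pr (eval U S a b (numT Γ m) ρ) (eval U S a b (numT Γ m) ρ))) = _
    rw [ih, HF.ord_succ]
    unfold HF.un HF.pr
    congr 1
    ext z
    simp only [HF.elems_mk, mem_biUnion, mem_insert, mem_singleton]
    constructor
    · rintro ⟨y, rfl | rfl, hz⟩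
      · exact Or.inr hz
      · rw [HF.elems_mk] at hz
        simp only [mem_insert, mem_singleton, or_self] at hz
        exact Or.inl hz
    · rintro (rfl | hz)
      · exact ⟨_, Or.inr rfl, by rw [HF.elems_mk]; simp⟩
      · exact ⟨_, Or.inl rfl, hz⟩

theorem eval_leT (U : Finset V) (S : Str Γ V) (a b : ℕ) (ρ : List (HF V)) (s t : Tm Γ) (i j : ℕ)
    (hs : eval U S a b s ρ = HF.ord i) (ht : eval U S a b t ρ = HF.ord j) :
    eval U S a b (leT s t) ρ = HF.tv (i ≤ j) := by
  have h1 : (HF.ord i : HF V) ∈ HF.elems (HF.ord j) ↔ i < j := by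
    rw [HF.elems_ord, mem_image]
    constructor
    · rintro ⟨k, hk, h⟩
      rw [← HF.ord_inj h]; exact mem_range.1 hk
    · intro h
      exact ⟨i, mem_range.2 h, rfl⟩
  show HF.tv (HF.tv (HF.tv (HF.tv (eval U S a b s ρ = eval U S a b t ρ) = HF.ord 0) ≠ HF.ord 0 ∧
    HF.tv (HF.tv (eval U S a b s ρ ∈ HF.elems (eval U S a b t ρ)) = HF.ord 0) ≠ HF.ord 0) =
      HF.ord 0) = _
  rw [hs, ht]
  apply tv_congr
  simp only [ne_eq, tv_eq_zero, not_not, h1, HF.ord_inj.eq_iff]
  omega

theorem eval_var [Fintype V] (S : Str Γ V) (a b : ℕ) {n : ℕ} (x : Fin n → V) (i : Fin n) :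
    eval univ S a b (.var i : Tm Γ) (List.ofFn (fun k => HF.atom (x k))) = HF.atom (x i) := by
  show List.getD _ _ _ = _
  rw [List.getD_eq_getElem _ _ (by simp)]
  simp

/-- the set of the atoms with a property -/
theorem eval_comp_atoms [Fintype V] (S : Str Γ V) (a b : ℕ) (t : Tm Γ) (ρ : List (HF V))
    (P : V → Prop) (h : ∀ v, eval univ S a b t (HF.atom v :: ρ) = HF.tv (P v)) :
    eval univ S a b (.comp (.var 0) .atoms t) ρ = HF.mk ((univ.filter P).image HF.atom) := by
  show HF.mk (((HF.elems (HF.mk (univ.image HF.atom))).filter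
    (fun x => eval univ S a b t (x :: ρ) ≠ HF.ord 0)).image
      (fun x => eval univ S a b (.var 0 : Tm Γ) (x :: ρ))) = _
  congr 1
  rw [HF.elems_mk]
  ext z
  simp only [mem_image, mem_filter, mem_univ, true_and]
  constructor
  · rintro ⟨y, ⟨⟨v, rfl⟩, hv⟩, rfl⟩
    rw [h v, ne_eq, tv_eq_zero, not_not] at hv
    exact ⟨v, hv, rfl⟩
  · rintro ⟨v, hv, rfl⟩
    refine ⟨HF.atom v, ⟨⟨v, rfl⟩, ?_⟩, rfl⟩
    rw [h v, ne_eq, tv_eq_zero, not_not]
    exact hv

theorem ofFn_cons {n : ℕ} (x : Fin n → V) (v : V) :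
    List.ofFn (fun k => HF.atom ((Fin.cons v x : Fin (n + 1) → V) k)) =
      HF.atom v :: List.ofFn (fun k => HF.atom (x k)) := by
  rw [List.ofFn_succ]
  rfl

/-- the value of the term of a formula is its truth value -/
theorem eval_tr [Fintype V] (S : Str Γ V) (a b : ℕ) {n : ℕ} (φ : FO Γ n) (x : Fin n → V) :
    eval univ S a b (tr φ) (List.ofFn (fun k => HF.atom (x k))) = HF.tv (Sat S φ x) := by
  induction φ with
  | eq i j =>
    show HF.tv (eval univ S a b (.var i : Tm Γ) _ = eval univ S a b (.var j : Tm Γ) _) = _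
    rw [eval_var, eval_var]
    exact tv_congr ⟨fun h => HF.atom_inj h, fun h => congrArg HF.atom h⟩
  | rel r v =>
    show HF.tv (∃ y : Fin (Γ.ar r) → V, (∀ i, eval univ S a b (.var (v i) : Tm Γ) _ =
      HF.atom (y i)) ∧ S r y) = _
    apply tv_congr
    constructor
    · rintro ⟨y, hy, h⟩
      have h1 : (fun k => x (v k)) = y := by
        funext k
        have := hy k
        rw [eval_var] at this
        exact HF.atom_inj this
      show S r (fun k => x (v k))
      rw [h1]; exact h
    · intro h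
      exact ⟨fun k => x (v k), fun i => eval_var S a b x (v i), h⟩
  | neg φ ih =>
    show HF.tv (eval univ S a b (tr φ) _ = HF.ord 0) = _
    rw [ih]
    exact tv_congr (tv_eq_zero _)
  | and φ ψ ihφ ihψ =>
    show HF.tv (eval univ S a b (tr φ) _ ≠ HF.ord 0 ∧ eval univ S a b (tr ψ) _ ≠ HF.ord 0) = _
    rw [ihφ, ihψ]
    apply tv_congr
    rw [ne_eq, ne_eq, tv_eq_zero, tv_eq_zero, not_not, not_not]
    exact Iff.rfl
  | @ex n φ ih =>
    show HF.tv (HF.tv (eval univ S a b (.comp (.var 0) .atoms (tr φ)) _ = HF.ord 0) =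
      HF.ord 0) = _
    rw [eval_comp_atoms S a b (tr φ) _ (fun v => Sat S φ (Fin.cons v x))
      (fun v => by rw [← ofFn_cons]; exact ih _)]
    apply tv_congr
    rw [tv_eq_zero, HF.ord_zero]
    constructor
    · intro h
      by_contra hcon
      apply h
      unfold HF.emp
      congr 1
      rw [image_eq_empty, filter_eq_empty_iff]
      intro v _ hv
      exact hcon ⟨v, hv⟩
    · rintro ⟨v, hv⟩ h
      have h1 := HF.mk_inj h
      have h2 : (HF.atom v : HF V) ∈ (univ.filter fun v => Sat S φ (Fin.cons v x)).image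
        HF.atom := mem_image_of_mem _ (mem_filter.2 ⟨mem_univ _, hv⟩)
      rw [h1] at h2
      exact absurd h2 (notMem_empty _)
  | @exge n m φ ih =>
    have h1 : eval univ S a b (.card (.comp (.var 0) .atoms (tr φ)))
        (List.ofFn (fun k => HF.atom (x k))) =
        HF.ord (univ.filter fun v => Sat S φ (Fin.cons v x)).card := by
      show HF.ord (HF.elems (eval univ S a b (.comp (.var 0) .atoms (tr φ)) _)).card = _
      rw [eval_comp_atoms S a b (tr φ) _ (fun v => Sat S φ (Fin.cons v x))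
        (fun v => by rw [← ofFn_cons]; exact ih _), HF.elems_mk,
        card_image_of_injective _ (fun a b h => HF.atom_inj h)]
    show eval univ S a b (leT (numT Γ m) (.card (.comp (.var 0) .atoms (tr φ)))) _ = _
    rw [eval_leT univ S a b _ _ _ m _ (eval_numT _ _ _ _ _ _) h1]
    apply tv_congr
    show _ ↔ (m : ℕ∞) ≤ Set.encard {v | Sat S φ (Fin.cons v x)}
    rw [← Finset.coe_filter_univ, Set.encard_coe_eq_coe_finsetCard, Nat.cast_le]

/-- first-order sentences (with counting quantifiers) are defined by BGS terms -/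
theorem fo_definable [Fintype V] (S : Str Γ V) (a b : ℕ) (φ : FO Γ 0) :
    Accepts S (tr φ) a b ↔ Sat S φ Fin.elim0 := by
  have h := eval_tr S a b φ Fin.elim0
  rw [List.ofFn_zero] at h
  show eval univ S a b (tr φ) [] = HF.ord 1 ↔ _
  rw [h, tv_eq_one]

/-- (S3) every first-order sentence over graphs with ordered colours is defined by a term, for all
bounds -/
theorem fo_definable_graph (φ : FO GrV 0) : ∃ t : Tm GrV, ∀ (a b : ℕ) (V : Type) (_ : Fintype V)
    (G : SimpleGraph V) (c : V → ℕ), Accepts (grStr G.Adj c) t a b ↔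
      Sat (grStr G.Adj c) φ Fin.elim0 :=
  ⟨tr φ, fun a b _ _ G c => fo_definable (grStr G.Adj c) a b φ⟩

end Pool.Agent.CPTS
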