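import Pool.Agent.CPT.Bgs

/-!
# Sanity check: inflationary fixed point logic with counting embeds into choiceless polynomial time
with counting

`Fm Γ` are the formulas of FPC, i.e. inflationary fixed point logic with counting (two sorts:
elements of the structure and numbers `0, …, |V|`; relation variables of mixed sorts). One list of
variables is used for both sorts and for the relation variables (de Bruijn indices).
-/

set_option autoImplicit false

namespace Pool.Agent.CPTS.FPC

open Finset Classical Pool.Agent.CPT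

/-- types of variables: `el true` elements, `el false` numbers, `rl τ` relations on tuples with
sorts `τ` -/
inductive Ty : Type
  /-- elements or numbers -/
  | el (s : Bool) : Ty
  /-- relations -/
  | rl (τ : List Bool) : Ty

/-- formulas of inflationary fixed point logic with counting -/
inductive Fm (Γ : Voc) : Type
  /-- `x_i = x_j` -/
  | eq (i j : ℕ) : Fm Γ
  /-- `x_i < x_j` for numbers -/
  | lt (i j : ℕ) : Fm Γ
  /-- atomic formulas of the input structure -/
  | rel (r : Γ.R) (is : Fin (Γ.ar r) → ℕ) : Fm Γ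
  /-- `X (x_i, …)` for a relation variable `X` -/
  | app (X : ℕ) (is : List ℕ) : Fm Γ
  /-- negation -/
  | neg (φ : Fm Γ) : Fm Γ
  /-- conjunction -/
  | and (φ ψ : Fm Γ) : Fm Γ
  /-- there is an element (or a number) `x_0` with `φ` -/
  | ex (s : Bool) (φ : Fm Γ) : Fm Γ
  /-- the number of elements `x_0` with `φ` is `x_i` -/
  | cnt (φ : Fm Γ) (i : ℕ) : Fm Γ
  /-- the tuple `(x_i, …)` is in the inflationary fixed point of `φ (X, x_0, …)` -/
  | ifp (s : Bool) (τ : List Bool) (φ : Fm Γ) (is : List ℕ) : Fm Γ

/-- well-typed formulas in a context -/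
def WT {Γ : Voc} : Fm Γ → List Ty → Prop
  | .eq i j, κ => ∃ s, κ[i]? = some (Ty.el s) ∧ κ[j]? = some (Ty.el s)
  | .lt i j, κ => κ[i]? = some (Ty.el false) ∧ κ[j]? = some (Ty.el false)
  | .rel _ is, κ => ∀ k, κ[is k]? = some (Ty.el true)
  | .app X is, κ => ∃ τ : List Bool, κ[X]? = some (Ty.rl τ) ∧
      List.Forall₂ (fun i s => κ[i]? = some (Ty.el s)) is τ
  | .neg φ, κ => WT φ κ
  | .and φ ψ, κ => WT φ κ ∧ WT ψ κ
  | .ex s φ, κ => WT φ (Ty.el s :: κ)
  | .cnt φ i, κ => WT φ (Ty.el true :: κ) ∧ κ[i]? = some (Ty.el false)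
  | .ifp s τ φ is, κ => WT φ ((s :: τ).map Ty.el ++ Ty.rl (s :: τ) :: κ) ∧
      List.Forall₂ (fun i s => κ[i]? = some (Ty.el s)) is (s :: τ)

/-- elements and numbers -/
abbrev El (V : Type) : Type := V ⊕ ℕ

/-- values of variables -/
inductive Val (V : Type) : Type
  /-- an element or a number -/
  | el (x : El V) : Val V
  /-- a relation -/
  | rl (R : Finset (List (El V))) : Val V

variable {V : Type} [Fintype V]

/-- the domains of the two sorts -/
noncomputable def dom (V : Type) [Fintype V] : Bool → Finset (El V)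
  | true => Finset.univ.image Sum.inl
  | false => (Finset.range (Fintype.card V + 1)).image Sum.inr

/-- the tuples with given sorts -/
noncomputable def tup (V : Type) [Fintype V] : List Bool → Finset (List (El V))
  | [] => {[]}
  | s :: τ => (dom V s ×ˢ tup V τ).image (fun p => p.1 :: p.2)

/-- the semantics of inflationary fixed point logic with counting -/
def Sat {Γ : Voc} (S : Str Γ V) : Fm Γ → List (Val V) → Prop
  | .eq i j, ρ => ρ[i]? = ρ[j]?
  | .lt i j, ρ => ∃ m n : ℕ, m < n ∧ ρ[i]? = some (Val.el (Sum.inr m)) ∧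
      ρ[j]? = some (Val.el (Sum.inr n))
  | .rel r is, ρ => ∃ x : Fin (Γ.ar r) → V, (∀ k, ρ[is k]? = some (Val.el (Sum.inl (x k)))) ∧ S r x
  | .app X is, ρ => ∃ (R : Finset (List (El V))) (t : List (El V)), ρ[X]? = some (Val.rl R) ∧
      List.Forall₂ (fun i x => ρ[i]? = some (Val.el x)) is t ∧ t ∈ R
  | .neg φ, ρ => ¬ Sat S φ ρ
  | .and φ ψ, ρ => Sat S φ ρ ∧ Sat S ψ ρ
  | .ex s φ, ρ => ∃ x ∈ dom V s, Sat S φ (Val.el x :: ρ)
  | .cnt φ i, ρ => ρ[i]? = some (Val.el (Sum.inr
      (Finset.univ.filter (fun v : V => Sat S φ (Val.el (Sum.inl v) :: ρ))).card))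
  | .ifp s τ φ is, ρ => ∃ t : List (El V), List.Forall₂ (fun i x => ρ[i]? = some (Val.el x)) is t ∧
      ∃ j : ℕ, t ∈ (fun R : Finset (List (El V)) => R ∪ (tup V (s :: τ)).filter
        (fun t => Sat S φ (t.map Val.el ++ Val.rl R :: ρ)))^[j] ∅

/-! ### The translation -/

/-- code of a tuple of terms -/
def codeT {Γ : Voc} : List (Tm Γ) → Tm Γ
  | [] => .empty
  | t :: ts => .pair (.pair t t) (.pair t (codeT ts))

/-- the domains of the two sorts as terms -/
def domT {Γ : Voc} : Bool → Tm Γ
  | true => .atoms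
  | false => .union (.pair (.card .atoms) (.pair (.card .atoms) (.card .atoms)))

/-- union of `u` over all tuples -/
def nestT {Γ : Voc} : List Bool → Tm Γ → Tm Γ
  | [], u => u
  | s :: τ, u => nestT τ (.union (.comp u (domT s) (.eq .empty .empty)))

/-- the translation into BGS logic -/
def tr {Γ : Voc} : Fm Γ → Tm Γ
  | .eq i j => .eq (.var i) (.var j)
  | .lt i j => .mem (.var i) (.var j)
  | .rel r is => .rel r (fun k => .var (is k))
  | .app X is => .mem (codeT (is.map .var)) (.var X)
  | .neg φ => .neg (tr φ)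
  | .and φ ψ => .and (tr φ) (tr ψ)
  | .ex s φ => .neg (.eq (.comp (.var 0) (domT s) (tr φ)) .empty)
  | .cnt φ i => .eq (.card (.comp (.var 0) .atoms (tr φ))) (.var i)
  | .ifp s τ φ is => .mem (codeT (is.map .var)) (.iter (.union (.pair (.var 0)
      (nestT τ (.comp (codeT ((List.range (τ.length + 1)).map .var)) (domT s) (tr φ))))))

/-- the polynomial bound -/
noncomputable def bp {Γ : Voc} : Fm Γ → Polynomial ℕ
  | .eq _ _ => 0
  | .lt _ _ => 0
  | .rel _ _ => 0
  | .app _ _ => 0
  | .neg φ => bp φ
  | .and φ ψ => bp φ + bp ψ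
  | .ex _ φ => bp φ
  | .cnt φ _ => bp φ
  | .ifp _ τ φ _ => bp φ + ((Polynomial.X + 1) ^ (τ.length + 1) *
      (((τ.length + 1 : ℕ) : Polynomial ℕ) * (Polynomial.X + 4) + 1) + 1)

/-! ### Encoding of values -/

omit [Fintype V] in
theorem ord_ne : (HF.ord 1 : HF V) ≠ HF.ord 0 := fun h => by
  have := HF.ord_inj h
  omega

omit [Fintype V] in
theorem tv_ne {p : Prop} : (HF.tv p : HF V) ≠ HF.ord 0 ↔ p := by
  unfold HF.tv
  split_ifs with h
  · exact iff_of_true ord_ne h
  · exact iff_of_false (fun h' => h' rfl) h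

omit [Fintype V] in
theorem tv_eq {p : Prop} : (HF.tv p : HF V) = HF.ord 1 ↔ p := by
  unfold HF.tv
  split_ifs with h
  · exact iff_of_true rfl h
  · exact iff_of_false (fun h' => ord_ne h'.symm) h

omit [Fintype V] in
theorem tv_congr {p q : Prop} (h : p ↔ q) : (HF.tv p : HF V) = HF.tv q := by
  rw [propext h]

/-- elements and numbers as objects -/
noncomputable def encE : El V → HF V
  | Sum.inl v => HF.atom v
  | Sum.inr m => HF.ord m

/-- Kuratowski pairs -/
noncomputable def kp (x y : HF V) : HF V := HF.pr (HF.pr x x) (HF.pr x y)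

/-- tuples as objects -/
noncomputable def code : List (El V) → HF V
  | [] => HF.emp
  | x :: t => kp (encE x) (code t)

/-- values as objects -/
noncomputable def enc : Val V → HF V
  | Val.el x => encE x
  | Val.rl R => HF.mk (R.image code)

omit [Fintype V] in
theorem encE_inj : Function.Injective (encE : El V → HF V) := by
  intro x y h
  rcases x with v | m <;> rcases y with w | n
  · exact congrArg Sum.inl (HF.atom_inj h)
  · exfalso
    have h1 : (HF.atom v : HF V) = HF.ord n := h
    rw [HF.ord_eq_mk] at h1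
    exact HF.atom_ne_mk _ _ h1
  · exfalso
    have h1 : (HF.ord m : HF V) = HF.atom w := h
    rw [HF.ord_eq_mk] at h1
    exact HF.atom_ne_mk _ _ h1.symm
  · exact congrArg Sum.inr (HF.ord_inj h)

omit [Fintype V] in
theorem pr_eq {x y z w : HF V} (h : HF.pr x y = HF.pr z w) :
    ({x, y} : Finset (HF V)) = {z, w} := HF.mk_inj h

omit [Fintype V] in
theorem kp_inj {x y z w : HF V} (h : kp x y = kp z w) : x = z ∧ y = w := by
  have h1 := pr_eq h
  have hxz : x = z := by
    have h2 : HF.pr x x ∈ ({HF.pr z z, HF.pr z w} : Finset (HF V)) := by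
      rw [← h1]; exact Finset.mem_insert_self _ _
    rw [Finset.mem_insert, Finset.mem_singleton] at h2
    rcases h2 with h2 | h2
    · have h3 := pr_eq h2
      have h4 : x ∈ ({z, z} : Finset (HF V)) := by
        rw [← h3]; exact Finset.mem_insert_self _ _
      simpa using h4
    · have h3 := pr_eq h2
      have h4 : z ∈ ({x, x} : Finset (HF V)) := by
        rw [h3]; exact Finset.mem_insert_self _ _
      have h5 : z = x := by simpa using h4
      exact h5.symm
  subst hxz
  refine ⟨rfl, ?_⟩
  have h2 : HF.pr x y ∈ ({HF.pr x x, HF.pr x w} : Finset (HF V)) := by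
    rw [← h1]; exact Finset.mem_insert_of_mem (Finset.mem_singleton_self _)
  have h2' : HF.pr x w ∈ ({HF.pr x x, HF.pr x y} : Finset (HF V)) := by
    rw [h1]; exact Finset.mem_insert_of_mem (Finset.mem_singleton_self _)
  rw [Finset.mem_insert, Finset.mem_singleton] at h2 h2'
  have key : ∀ u v : HF V, HF.pr x u = HF.pr x v → u = x → v = x := by
    intro u v huv hu
    have h3 := pr_eq huv
    have h4 : v ∈ ({x, u} : Finset (HF V)) := by
      rw [h3]; exact Finset.mem_insert_of_mem (Finset.mem_singleton_self _)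
    rw [hu] at h4
    simpa using h4
  have key2 : ∀ u v : HF V, HF.pr x u = HF.pr x v → u = v := by
    intro u v huv
    have h3 := pr_eq huv
    have h4 : v ∈ ({x, u} : Finset (HF V)) := by
      rw [h3]; exact Finset.mem_insert_of_mem (Finset.mem_singleton_self _)
    rw [Finset.mem_insert, Finset.mem_singleton] at h4
    rcases h4 with h4 | h4
    · rw [h4]
      exact key v u huv.symm h4
    · exact h4.symm
  rcases h2 with h2 | h2
  · have hy : y = x := key2 y x h2
    rcases h2' with h3 | h3
    · rw [hy, key2 w x h3]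
    · exact (key2 w y h3).symm
  · exact key2 y w h2

omit [Fintype V] in
theorem kp_ne (x y : HF V) : kp x y ≠ HF.emp := by
  intro h
  have h1 : ({HF.pr x x, HF.pr x y} : Finset (HF V)) = ∅ := HF.mk_inj h
  have h2 : HF.pr x x ∈ (∅ : Finset (HF V)) := by
    rw [← h1]; exact Finset.mem_insert_self _ _
  exact Finset.notMem_empty _ h2

omit [Fintype V] in
theorem code_inj : Function.Injective (code : List (El V) → HF V) := by
  intro t
  induction t with
  | nil =>
    intro u h
    cases u with
    | nil => rfl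
    | cons y u => exact absurd h.symm (kp_ne _ _)
  | cons x t ih =>
    intro u h
    cases u with
    | nil => exact absurd h (kp_ne _ _)
    | cons y u =>
      obtain ⟨h1, h2⟩ := kp_inj h
      rw [encE_inj h1, ih h2]

/-! ### Values of the auxiliary terms -/

variable {Γ : Voc}

omit [Fintype V] in
theorem eval_codeT (U : Finset V) (S : Str Γ V) (a b : ℕ) (ρ : List (HF V)) (ts : List (Tm Γ))
    (t : List (El V)) (h : List.Forall₂ (fun u x => eval U S a b u ρ = encE x) ts t) :
    eval U S a b (codeT ts) ρ = code t := by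
  induction h with
  | nil => rfl
  | @cons u x ts t hu _ ih =>
    show HF.pr (HF.pr (eval U S a b u ρ) (eval U S a b u ρ))
      (HF.pr (eval U S a b u ρ) (eval U S a b (codeT ts) ρ)) = kp (encE x) (code t)
    rw [hu, ih]
    rfl

theorem eval_domT (S : Str Γ V) (a b : ℕ) (s : Bool) (ρ : List (HF V)) :
    eval univ S a b (domT s) ρ = HF.mk ((dom V s).image encE) := by
  cases s with
  | true =>
    show HF.mk (univ.image HF.atom) = _
    congr 1
    show _ = ((Finset.univ.image Sum.inl : Finset (El V))).image encE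
    rw [Finset.image_image]
    rfl
  | false =>
    have hc : eval univ S a b (.card .atoms : Tm Γ) ρ = HF.ord (Fintype.card V) := by
      show HF.ord (HF.elems (HF.mk (univ.image HF.atom))).card = _
      rw [HF.elems_mk, Finset.card_image_of_injective _ (fun _ _ h => HF.atom_inj h),
        Finset.card_univ]
    show HF.un (HF.pr (eval univ S a b (.card .atoms : Tm Γ) ρ)
      (HF.pr (eval univ S a b (.card .atoms : Tm Γ) ρ) (eval univ S a b (.card .atoms : Tm Γ) ρ))) = _
    rw [hc]
    unfold HF.un HF.pr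
    congr 1
    rw [HF.elems_mk, Finset.biUnion_insert, Finset.singleton_biUnion, HF.elems_mk, HF.elems_ord]
    show _ = ((Finset.range (Fintype.card V + 1)).image Sum.inr : Finset (El V)).image encE
    rw [Finset.image_image]
    ext z
    simp only [Finset.mem_union, Finset.mem_image, Finset.mem_range, Finset.mem_insert,
      Finset.mem_singleton, Function.comp_apply, or_self]
    constructor
    · rintro (⟨m, hm, rfl⟩ | rfl)
      · exact ⟨m, by omega, rfl⟩
      · exact ⟨Fintype.card V, by omega, rfl⟩
    · rintro ⟨m, hm, rfl⟩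
      rcases Nat.lt_succ_iff_lt_or_eq.1 hm with h | h
      · exact Or.inl ⟨m, h, rfl⟩
      · exact Or.inr (by rw [h]; rfl)

theorem elems_nestT (S : Str Γ V) (a b : ℕ) (τ : List Bool) (u : Tm Γ) (ρ : List (HF V)) (z : HF V) :
    z ∈ HF.elems (eval univ S a b (nestT τ u) ρ) ↔
      ∃ t ∈ tup V τ, z ∈ HF.elems (eval univ S a b u (t.map encE ++ ρ)) := by
  induction τ generalizing u with
  | nil =>
    show z ∈ HF.elems (eval univ S a b u ρ) ↔ ∃ t ∈ ({[]} : Finset (List (El V))), _
    simp
  | cons s τ ih =>
    show z ∈ HF.elems (eval univ S a b (nestT τ (.union (.comp u (domT s) (.eq .empty .empty)))) ρ) ↔ _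
    rw [ih]
    have key : ∀ t : List (El V), z ∈ HF.elems (eval univ S a b
        (.union (.comp u (domT s) (.eq .empty .empty))) (t.map encE ++ ρ)) ↔
        ∃ x ∈ dom V s, z ∈ HF.elems (eval univ S a b u (((x :: t).map encE) ++ ρ)) := by
      intro t
      show z ∈ HF.elems (HF.un (HF.mk (((HF.elems (eval univ S a b (domT s) (t.map encE ++ ρ))).filter
        (fun x => eval univ S a b (.eq .empty .empty) (x :: (t.map encE ++ ρ)) ≠ HF.ord 0)).image
          (fun x => eval univ S a b u (x :: (t.map encE ++ ρ)))))) ↔ _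
      rw [eval_domT]
      unfold HF.un
      rw [HF.elems_mk, HF.elems_mk, HF.elems_mk]
      simp only [Finset.mem_biUnion, Finset.mem_image, Finset.mem_filter]
      constructor
      · rintro ⟨w, ⟨y, ⟨⟨x, hx, rfl⟩, -⟩, rfl⟩, hz⟩
        exact ⟨x, hx, hz⟩
      · rintro ⟨x, hx, hz⟩
        refine ⟨_, ⟨encE x, ⟨⟨x, hx, rfl⟩, ?_⟩, rfl⟩, hz⟩
        show (HF.tv ((HF.emp : HF V) = HF.emp) : HF V) ≠ HF.ord 0
        rw [tv_ne]
    constructor
    · rintro ⟨t, ht, h⟩
      obtain ⟨x, hx, hz⟩ := (key t).1 h
      refine ⟨x :: t, ?_, hz⟩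
      exact Finset.mem_image.2 ⟨(x, t), Finset.mem_product.2 ⟨hx, ht⟩, rfl⟩
    · rintro ⟨t', ht', hz⟩
      obtain ⟨⟨x, t⟩, hxt, rfl⟩ := Finset.mem_image.1 ht'
      obtain ⟨hx, ht⟩ := Finset.mem_product.1 hxt
      exact ⟨t, ht, (key t).2 ⟨x, hx, hz⟩⟩

theorem nestT_set (S : Str Γ V) (a b : ℕ) (τ : List Bool) (u : Tm Γ) (ρ : List (HF V))
    (hu : ∀ ρ, ∃ s, eval univ S a b u ρ = HF.mk s) : ∃ s, eval univ S a b (nestT τ u) ρ = HF.mk s := by
  induction τ generalizing u with
  | nil => exact hu ρ
  | cons s τ ih => exact ih _ fun ρ => ⟨_, rfl⟩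

/-! ### Inflationary iterations -/

section infl

variable {T : Type} (F : Finset T → Finset T) (D : Finset T)

theorem infl_mono (hF : ∀ R, R ⊆ F R) {i j : ℕ} (hij : i ≤ j) : F^[i] ∅ ⊆ F^[j] ∅ := by
  induction hij with
  | refl => exact Finset.Subset.refl _
  | @step j _ ih =>
    rw [Function.iterate_succ_apply']
    exact ih.trans (hF _)

theorem infl_sub (hD : ∀ R, R ⊆ D → F R ⊆ D) (i : ℕ) : F^[i] ∅ ⊆ D := by
  induction i with
  | zero => exact Finset.empty_subset _
  | succ i ih =>
    rw [Function.iterate_succ_apply']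
    exact hD _ ih

theorem infl_fix (hF : ∀ R, R ⊆ F R) (hD : ∀ R, R ⊆ D → F R ⊆ D) :
    ∃ i ≤ D.card, F (F^[i] ∅) = F^[i] ∅ := by
  by_contra h
  push Not at h
  have h1 : ∀ i ≤ D.card + 1, i ≤ (F^[i] ∅).card := by
    intro i
    induction i with
    | zero => intro _; exact Nat.zero_le _
    | succ i ih =>
      intro hi
      have h2 := ih (by omega)
      have h3 := h i (by omega)
      have h5 : F^[i] ∅ ⊂ F (F^[i] ∅) := (hF _).ssubset_of_ne (fun h' => h3 h'.symm)
      have h6 := Finset.card_lt_card h5
      rw [Function.iterate_succ_apply']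
      omega
  have h2 := h1 _ le_rfl
  have h3 := Finset.card_le_card (infl_sub F D hD (D.card + 1))
  omega

theorem infl_stable {i : ℕ} (h : F (F^[i] ∅) = F^[i] ∅) {j : ℕ} (hij : i ≤ j) :
    F^[j] ∅ = F^[i] ∅ := by
  induction hij with
  | refl => rfl
  | @step j _ ih =>
    rw [Function.iterate_succ_apply', ih, h]

end infl

/-! ### Sizes -/

omit [Fintype V] in
theorem card_tc_ord (m : ℕ) : (HF.tc (HF.ord m : HF V)).card ≤ m + 1 := by
  have h : ∀ m : ℕ, HF.tc (HF.ord m : HF V) ⊆ (Finset.range (m + 1)).image HF.ord := by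
    intro m
    induction m using Nat.strong_induction_on with
    | _ m ih =>
      intro z hz
      rw [HF.ord_eq_mk, HF.mem_tc_mk, ← HF.ord_eq_mk] at hz
      rcases hz with rfl | ⟨y, hy, hz⟩
      · exact Finset.mem_image_of_mem _ (Finset.mem_range.2 (Nat.lt_succ_self _))
      · obtain ⟨k, hk, rfl⟩ := Finset.mem_image.1 hy
        have hk' := Finset.mem_range.1 hk
        obtain ⟨l, hl, rfl⟩ := Finset.mem_image.1 (ih k hk' hz)
        exact Finset.mem_image_of_mem _ (Finset.mem_range.2 (by
          have := Finset.mem_range.1 hl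
          omega))
  refine (Finset.card_le_card (h m)).trans (Finset.card_image_le.trans ?_)
  rw [Finset.card_range]

theorem card_tc_encE {s : Bool} {x : El V} (hx : x ∈ dom V s) :
    (HF.tc (encE x)).card ≤ Fintype.card V + 1 := by
  cases s with
  | true =>
    obtain ⟨v, -, rfl⟩ := Finset.mem_image.1 hx
    show (HF.tc (HF.atom v)).card ≤ _
    rw [HF.tc_atom, Finset.card_singleton]
    omega
  | false =>
    obtain ⟨m, hm, rfl⟩ := Finset.mem_image.1 hx
    have h1 := Finset.mem_range.1 hm
    have h2 := card_tc_ord (V := V) m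
    show (HF.tc (HF.ord m)).card ≤ _
    omega

omit [Fintype V] in
theorem card_tc_kp (x y : HF V) : (HF.tc (kp x y)).card ≤ (HF.tc x).card + (HF.tc y).card + 3 := by
  have h : HF.tc (kp x y) ⊆ {kp x y, HF.pr x x, HF.pr x y} ∪ (HF.tc x ∪ HF.tc y) := by
    intro z hz
    unfold kp HF.pr at hz
    rw [HF.mem_tc_mk] at hz
    rcases hz with rfl | ⟨w, hw, hz⟩
    · exact Finset.mem_union_left _ (Finset.mem_insert_self _ _)
    · rw [Finset.mem_insert, Finset.mem_singleton] at hw
      rcases hw with rfl | rfl
      · rw [HF.mem_tc_mk] at hz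
        rcases hz with rfl | ⟨w, hw, hz⟩
        · exact Finset.mem_union_left _ (Finset.mem_insert_of_mem (Finset.mem_insert_self _ _))
        · rw [Finset.mem_insert, Finset.mem_singleton] at hw
          rcases hw with rfl | rfl <;>
            exact Finset.mem_union_right _ (Finset.mem_union_left _ hz)
      · rw [HF.mem_tc_mk] at hz
        rcases hz with rfl | ⟨w, hw, hz⟩
        · exact Finset.mem_union_left _ (Finset.mem_insert_of_mem
            (Finset.mem_insert_of_mem (Finset.mem_singleton_self _)))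
        · rw [Finset.mem_insert, Finset.mem_singleton] at hw
          rcases hw with rfl | rfl
          · exact Finset.mem_union_right _ (Finset.mem_union_left _ hz)
          · exact Finset.mem_union_right _ (Finset.mem_union_right _ hz)
  have h1 := Finset.card_le_card h
  have h2 := Finset.card_union_le ({kp x y, HF.pr x x, HF.pr x y} : Finset (HF V))
    (HF.tc x ∪ HF.tc y)
  have h3 := Finset.card_union_le (HF.tc x) (HF.tc y)
  have h4 : ({kp x y, HF.pr x x, HF.pr x y} : Finset (HF V)).card ≤ 3 := Finset.card_le_three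
  omega

theorem card_tc_code {τ : List Bool} {t : List (El V)} (ht : t ∈ tup V τ) :
    (HF.tc (code t)).card ≤ τ.length * (Fintype.card V + 4) + 1 := by
  induction τ generalizing t with
  | nil =>
    have h1 : t = [] := Finset.mem_singleton.1 ht
    subst h1
    show (HF.tc (HF.mk ∅ : HF V)).card ≤ _
    rw [HF.tc_mk]
    simp
  | cons s τ ih =>
    obtain ⟨⟨x, t⟩, hxt, rfl⟩ := Finset.mem_image.1 ht
    obtain ⟨hx, ht⟩ := Finset.mem_product.1 hxt
    have h1 := card_tc_kp (encE x) (code t)
    have h2 : (HF.tc (encE x)).card ≤ Fintype.card V + 1 := card_tc_encE hx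
    have h3 : (HF.tc (code t)).card ≤ τ.length * (Fintype.card V + 4) + 1 := ih ht
    show (HF.tc (kp (encE x) (code t))).card ≤ _
    rw [List.length_cons, add_mul]
    omega

theorem card_dom (s : Bool) : (dom V s).card ≤ Fintype.card V + 1 := by
  cases s with
  | true =>
    refine Finset.card_image_le.trans ?_
    rw [Finset.card_univ]
    omega
  | false =>
    refine Finset.card_image_le.trans ?_
    rw [Finset.card_range]

theorem card_tup (τ : List Bool) : (tup V τ).card ≤ (Fintype.card V + 1) ^ τ.length := by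
  induction τ with
  | nil => exact le_of_eq (Finset.card_singleton _)
  | cons s τ ih =>
    refine Finset.card_image_le.trans ?_
    rw [Finset.card_product, List.length_cons, pow_succ, mul_comm]
    exact Nat.mul_le_mul ih (card_dom s)

theorem card_tc_rel {τ : List Bool} {R : Finset (List (El V))} (hR : R ⊆ tup V τ) :
    (HF.tc (HF.mk (R.image code))).card ≤ (Fintype.card V + 1) ^ τ.length *
      (τ.length * (Fintype.card V + 4) + 1) + 1 := by
  rw [HF.tc_mk]
  refine (Finset.card_insert_le _ _).trans (Nat.add_le_add_right ?_ 1)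
  refine Finset.card_biUnion_le.trans ?_
  refine (Finset.sum_le_card_nsmul _ _ (τ.length * (Fintype.card V + 4) + 1) ?_).trans ?_
  · intro z hz
    obtain ⟨t, ht, rfl⟩ := Finset.mem_image.1 hz
    exact card_tc_code (hR ht)
  · rw [smul_eq_mul]
    exact Nat.mul_le_mul_right _ (Finset.card_image_le.trans
      ((Finset.card_le_card hR).trans (card_tup τ)))

/-! ### The main theorem -/

/-- a value has a type -/
def HasTy (x : Val V) : Ty → Prop
  | Ty.el s => ∃ y ∈ dom V s, x = Val.el y
  | Ty.rl τ => ∃ R ⊆ tup V τ, x = Val.rl R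

theorem getElem?_ty {ρ : List (Val V)} {κ : List Ty} (h : List.Forall₂ HasTy ρ κ) {i : ℕ} {a : Ty}
    (ha : κ[i]? = some a) : ∃ x : Val V, ρ[i]? = some x ∧ HasTy x a := by
  induction h generalizing i with
  | nil => simp at ha
  | @cons x b ρ κ hx _ ih =>
    cases i with
    | zero =>
      simp only [List.getElem?_cons_zero, Option.some.injEq] at ha
      exact ⟨x, by simp, ha ▸ hx⟩
    | succ i =>
      simp only [List.getElem?_cons_succ] at ha
      obtain ⟨y, hy, hy'⟩ := ih ha
      exact ⟨y, by simpa using hy, hy'⟩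

omit [Fintype V] in
theorem getD_enc {ρ : List (Val V)} {i : ℕ} {x : Val V} (h : ρ[i]? = some x) (d : HF V) :
    (ρ.map enc).getD i d = enc x := by
  rw [List.getD_eq_getElem?_getD, List.getElem?_map, h]
  rfl

theorem forall₂_ty {ρ : List (Val V)} {κ : List Ty} (h : List.Forall₂ HasTy ρ κ) {is : List ℕ}
    {τ : List Bool} (hτ : List.Forall₂ (fun i s => κ[i]? = some (Ty.el s)) is τ) :
    ∃ t ∈ tup V τ, List.Forall₂ (fun i x => ρ[i]? = some (Val.el x)) is t := by
  induction hτ with
  | nil => exact ⟨[], Finset.mem_singleton_self _, List.Forall₂.nil⟩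
  | @cons i s is τ hi _ ih =>
    obtain ⟨t, ht, h1⟩ := ih
    obtain ⟨x, hx, y, hy, rfl⟩ := getElem?_ty h hi
    exact ⟨y :: t, Finset.mem_image.2 ⟨(y, t), Finset.mem_product.2 ⟨hy, ht⟩, rfl⟩,
      List.Forall₂.cons hx h1⟩

omit [Fintype V] in
theorem forall₂_unique {ρ : List (Val V)} {is : List ℕ} {t u : List (El V)}
    (ht : List.Forall₂ (fun i x => ρ[i]? = some (Val.el x)) is t)
    (hu : List.Forall₂ (fun i x => ρ[i]? = some (Val.el x)) is u) : t = u := by
  induction ht generalizing u with
  | nil => cases hu; rfl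
  | @cons i x is t hx _ ih =>
    cases hu with
    | cons hy hu =>
      rw [hx] at hy
      injection hy with hy
      injection hy with hy
      rw [hy, ih hu]

omit [Fintype V] in
theorem eval_code_var (U : Finset V) (S : Str Γ V) (a b : ℕ) {ρ : List (Val V)} {is : List ℕ}
    {t : List (El V)} (h : List.Forall₂ (fun i x => ρ[i]? = some (Val.el x)) is t) :
    eval U S a b (codeT (is.map Tm.var)) (ρ.map enc) = code t := by
  apply eval_codeT
  induction h with
  | nil => exact List.Forall₂.nil
  | @cons i x is t hx _ ih => exact List.Forall₂.cons (getD_enc hx _) ih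

theorem length_tup {τ : List Bool} {t : List (El V)} (ht : t ∈ tup V τ) :
    t.length = τ.length := by
  induction τ generalizing t with
  | nil =>
    have h1 : t = [] := Finset.mem_singleton.1 ht
    subst h1
    rfl
  | cons s τ ih =>
    obtain ⟨⟨x, t⟩, hxt, rfl⟩ := Finset.mem_image.1 ht
    have h := ih (Finset.mem_product.1 hxt).2
    simp [h]

theorem tup_ty {τ : List Bool} {t : List (El V)} (ht : t ∈ tup V τ) :
    List.Forall₂ HasTy (t.map Val.el) (τ.map Ty.el) := by
  induction τ generalizing t with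
  | nil =>
    have h1 : t = [] := Finset.mem_singleton.1 ht
    subst h1
    exact List.Forall₂.nil
  | cons s τ ih =>
    obtain ⟨⟨x, t⟩, hxt, rfl⟩ := Finset.mem_image.1 ht
    obtain ⟨hx, ht⟩ := Finset.mem_product.1 hxt
    exact List.Forall₂.cons ⟨x, hx, rfl⟩ (ih ht)

omit [Fintype V] in
theorem forall₂_range (t : List (El V)) (ρ : List (Val V)) :
    List.Forall₂ (fun i x => (t.map Val.el ++ ρ)[i]? = some (Val.el x)) (List.range t.length) t := by
  rw [List.forall₂_iff_get]
  refine ⟨by simp, fun i h1 h2 => ?_⟩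
  simp only [List.get_eq_getElem, List.getElem_range]
  rw [List.getElem?_append_left (by simpa using h2)]
  simp

/-- the value of the translation is the truth value of the formula -/
theorem eval_tr (S : Str Γ V) (a b : ℕ) (φ : Fm Γ) (κ : List Ty) (hφ : WT φ κ)
    (ha : (bp φ).eval (Fintype.card V) ≤ a) (hb : (bp φ).eval (Fintype.card V) ≤ b)
    (ρ : List (Val V)) (hρ : List.Forall₂ HasTy ρ κ) :
    eval univ S a b (tr φ) (ρ.map enc) = HF.tv (Sat S φ ρ) := by
  induction φ generalizing κ ρ with
  | eq i j =>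
    obtain ⟨s, hi, hj⟩ := hφ
    obtain ⟨x, hx, x', hx', rfl⟩ := getElem?_ty hρ hi
    obtain ⟨y, hy, y', hy', rfl⟩ := getElem?_ty hρ hj
    show HF.tv ((ρ.map enc).getD i HF.emp = (ρ.map enc).getD j HF.emp) = _
    rw [getD_enc hx, getD_enc hy]
    apply tv_congr
    show encE x' = encE y' ↔ ρ[i]? = ρ[j]?
    rw [hx, hy]
    constructor
    · intro h
      rw [encE_inj h]
    · intro h
      injection h with h
      injection h with h
      rw [h]
  | lt i j =>
    obtain ⟨hi, hj⟩ := hφ
    obtain ⟨x, hx, x', hx', rfl⟩ := getElem?_ty hρ hi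
    obtain ⟨y, hy, y', hy', rfl⟩ := getElem?_ty hρ hj
    obtain ⟨m, -, rfl⟩ := Finset.mem_image.1 hx'
    obtain ⟨n, -, rfl⟩ := Finset.mem_image.1 hy'
    show HF.tv ((ρ.map enc).getD i HF.emp ∈ HF.elems ((ρ.map enc).getD j HF.emp)) = _
    rw [getD_enc hx, getD_enc hy]
    apply tv_congr
    show HF.ord m ∈ HF.elems (HF.ord n) ↔ ∃ m n : ℕ, m < n ∧ ρ[i]? = some (Val.el (Sum.inr m)) ∧
      ρ[j]? = some (Val.el (Sum.inr n))
    rw [HF.elems_ord]
    constructor
    · intro h
      obtain ⟨k, hk, hkm⟩ := Finset.mem_image.1 h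
      have := HF.ord_inj hkm
      subst this
      exact ⟨k, n, Finset.mem_range.1 hk, hx, hy⟩
    · rintro ⟨m', n', hlt, h1, h2⟩
      rw [hx] at h1
      rw [hy] at h2
      have h1' : m = m' := by simpa using h1
      have h2' : n = n' := by simpa using h2
      subst h1' h2'
      exact Finset.mem_image_of_mem _ (Finset.mem_range.2 hlt)
  | rel r is =>
    show HF.tv (∃ x : Fin (Γ.ar r) → V, (∀ i, (ρ.map enc).getD (is i) HF.emp = HF.atom (x i)) ∧
      S r x) = HF.tv (∃ x : Fin (Γ.ar r) → V, (∀ k, ρ[is k]? = some (Val.el (Sum.inl (x k)))) ∧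
        S r x)
    apply tv_congr
    refine exists_congr fun x => and_congr_left fun _ => forall_congr' fun k => ?_
    obtain ⟨y, hy, y', hy', rfl⟩ := getElem?_ty hρ (hφ k)
    rw [getD_enc hy, hy]
    constructor
    · intro h
      have h1 : encE y' = encE (Sum.inl (x k)) := h
      rw [encE_inj h1]
    · intro h
      injection h with h
      injection h with h
      rw [h]
      rfl
  | app X is =>
    obtain ⟨τ, hX, his⟩ := hφ
    obtain ⟨x, hx, R, hR, rfl⟩ := getElem?_ty hρ hX
    obtain ⟨t, ht, his'⟩ := forall₂_ty hρ his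
    show HF.tv (eval univ S a b (codeT (is.map Tm.var)) (ρ.map enc) ∈
      HF.elems ((ρ.map enc).getD X HF.emp)) = _
    rw [getD_enc hx, eval_code_var univ S a b his']
    apply tv_congr
    show code t ∈ HF.elems (HF.mk (R.image code)) ↔ ∃ (R : Finset (List (El V)))
      (t : List (El V)), ρ[X]? = some (Val.rl R) ∧
      List.Forall₂ (fun i x => ρ[i]? = some (Val.el x)) is t ∧ t ∈ R
    rw [HF.elems_mk]
    constructor
    · intro h
      obtain ⟨u, hu, hut⟩ := Finset.mem_image.1 h
      rw [code_inj hut] at hu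
      exact ⟨R, t, hx, his', hu⟩
    · rintro ⟨R', t', h1, h2, h3⟩
      rw [hx] at h1
      injection h1 with h1
      injection h1 with h1
      subst h1
      rw [forall₂_unique his' h2]
      exact Finset.mem_image_of_mem _ h3
  | neg φ ih =>
    show HF.tv (eval univ S a b (tr φ) (ρ.map enc) = HF.ord 0) = HF.tv (¬ Sat S φ ρ)
    rw [ih κ hφ ha hb ρ hρ]
    apply tv_congr
    have h := not_congr (tv_ne (V := V) (p := Sat S φ ρ))
    rwa [not_not] at h
  | and φ ψ ih1 ih2 =>
    have h : (bp (Fm.and φ ψ)).eval (Fintype.card V) =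
      (bp φ).eval (Fintype.card V) + (bp ψ).eval (Fintype.card V) := Polynomial.eval_add
    rw [h] at ha hb
    show HF.tv (eval univ S a b (tr φ) (ρ.map enc) ≠ HF.ord 0 ∧
      eval univ S a b (tr ψ) (ρ.map enc) ≠ HF.ord 0) = HF.tv (Sat S φ ρ ∧ Sat S ψ ρ)
    rw [ih1 κ hφ.1 (by omega) (by omega) ρ hρ, ih2 κ hφ.2 (by omega) (by omega) ρ hρ]
    exact tv_congr (and_congr tv_ne tv_ne)
  | ex s φ ih =>
    show HF.tv (HF.tv (HF.mk (((HF.elems (eval univ S a b (domT s) (ρ.map enc))).filter
      (fun x => eval univ S a b (tr φ) (x :: ρ.map enc) ≠ HF.ord 0)).image (fun x => x)) =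
        HF.emp) = HF.ord 0) = HF.tv (∃ x ∈ dom V s, Sat S φ (Val.el x :: ρ))
    apply tv_congr
    have h := tv_ne (V := V) (p := HF.mk (((HF.elems (eval univ S a b (domT s) (ρ.map enc))).filter
      (fun x => eval univ S a b (tr φ) (x :: ρ.map enc) ≠ HF.ord 0)).image (fun x => x)) =
        HF.emp)
    rw [← not_iff_not, not_not] at h
    rw [h, eval_domT, HF.elems_mk, Finset.image_id']
    have hx : ∀ x ∈ dom V s, eval univ S a b (tr φ) (encE x :: ρ.map enc) =
        HF.tv (Sat S φ (Val.el x :: ρ)) := fun x hx =>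
      ih (Ty.el s :: κ) hφ ha hb (Val.el x :: ρ) (List.Forall₂.cons ⟨x, hx, rfl⟩ hρ)
    constructor
    · intro h1
      by_contra h2
      push Not at h2
      apply h1
      show HF.mk _ = HF.mk ∅
      congr 1
      rw [Finset.filter_eq_empty_iff]
      intro z hz
      obtain ⟨x, hx', rfl⟩ := Finset.mem_image.1 hz
      rw [hx x hx', tv_ne]
      exact h2 x hx'
    · rintro ⟨x, hx', hs⟩ h1
      have h2 := HF.mk_inj h1
      have h3 : encE x ∈ ((dom V s).image encE).filter
          (fun x => eval univ S a b (tr φ) (x :: ρ.map enc) ≠ HF.ord 0) := by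
        rw [Finset.mem_filter]
        refine ⟨Finset.mem_image_of_mem _ hx', ?_⟩
        rw [hx x hx', tv_ne]
        exact hs
      rw [h2] at h3
      exact Finset.notMem_empty _ h3
  | cnt φ i ih =>
    obtain ⟨hφ1, hi⟩ := hφ
    obtain ⟨y, hy, y', hy', rfl⟩ := getElem?_ty hρ hi
    obtain ⟨m, -, rfl⟩ := Finset.mem_image.1 hy'
    have hx : ∀ v : V, eval univ S a b (tr φ) (HF.atom v :: ρ.map enc) =
        HF.tv (Sat S φ (Val.el (Sum.inl v) :: ρ)) := fun v =>
      ih (Ty.el true :: κ) hφ1 ha hb (Val.el (Sum.inl v) :: ρ) (List.Forall₂.cons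
        ⟨Sum.inl v, Finset.mem_image_of_mem _ (Finset.mem_univ v), rfl⟩ hρ)
    show HF.tv (HF.ord (HF.elems (HF.mk (((HF.elems (HF.mk (univ.image HF.atom))).filter
      (fun x => eval univ S a b (tr φ) (x :: ρ.map enc) ≠ HF.ord 0)).image (fun x => x)))).card =
        (ρ.map enc).getD i HF.emp) = _
    rw [getD_enc hy, HF.elems_mk, HF.elems_mk, Finset.image_id', Finset.filter_image,
      Finset.card_image_of_injective _ (fun _ _ h => HF.atom_inj h)]
    have hc : (univ.filter (fun v : V => eval univ S a b (tr φ) (HF.atom v :: ρ.map enc) ≠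
        HF.ord 0)) = univ.filter (fun v : V => Sat S φ (Val.el (Sum.inl v) :: ρ)) := by
      refine Finset.filter_congr fun v _ => ?_
      rw [hx v, tv_ne]
    rw [hc]
    apply tv_congr
    show HF.ord _ = HF.ord m ↔ ρ[i]? = some (Val.el (Sum.inr
      (Finset.univ.filter (fun v : V => Sat S φ (Val.el (Sum.inl v) :: ρ))).card))
    rw [hy]
    constructor
    · intro h
      rw [HF.ord_inj h]
    · intro h
      injection h with h
      injection h with h
      injection h with h
      rw [h]
  | ifp s τ φ is ih =>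
    obtain ⟨hφ1, his⟩ := hφ
    obtain ⟨t, ht, his'⟩ := forall₂_ty hρ his
    set F : Finset (List (El V)) → Finset (List (El V)) := fun R => R ∪ (tup V (s :: τ)).filter
        (fun t => Sat S φ (t.map Val.el ++ Val.rl R :: ρ)) with hF
    set u : Tm Γ := .union (.pair (.var 0)
      (nestT τ (.comp (codeT ((List.range (τ.length + 1)).map .var)) (domT s) (tr φ)))) with hu
    have hbe : (bp (Fm.ifp s τ φ is)).eval (Fintype.card V) = (bp φ).eval (Fintype.card V) +
        ((Fintype.card V + 1) ^ (τ.length + 1) *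
          ((τ.length + 1) * (Fintype.card V + 4) + 1) + 1) := by
      show (bp φ + ((Polynomial.X + 1) ^ (τ.length + 1) *
        (((τ.length + 1 : ℕ) : Polynomial ℕ) * (Polynomial.X + 4) + 1) + 1)).eval _ = _
      simp
    rw [hbe] at ha hb
    have haφ : (bp φ).eval (Fintype.card V) ≤ a := by omega
    have hbφ : (bp φ).eval (Fintype.card V) ≤ b := by omega
    have hD : ∀ R, R ⊆ tup V (s :: τ) → F R ⊆ tup V (s :: τ) := fun R hR =>
      Finset.union_subset hR (Finset.filter_subset _ _)
    have hFi : ∀ R, R ⊆ F R := fun R => Finset.subset_union_left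
    -- one step
    have hstep : ∀ R, R ⊆ tup V (s :: τ) →
        eval univ S a b u (HF.mk (R.image code) :: ρ.map enc) = HF.mk ((F R).image code) := by
      intro R hR
      have hin : ∀ (t : List (El V)), t ∈ tup V τ → ∀ z : HF V,
          z ∈ HF.elems (eval univ S a b
            (.comp (codeT ((List.range (τ.length + 1)).map .var)) (domT s) (tr φ))
            (t.map encE ++ HF.mk (R.image code) :: ρ.map enc)) ↔
          ∃ x ∈ dom V s, Sat S φ ((x :: t).map Val.el ++ Val.rl R :: ρ) ∧ z = code (x :: t) := by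
        intro t ht z
        show z ∈ HF.elems (HF.mk (((HF.elems (eval univ S a b (domT s)
          (t.map encE ++ HF.mk (R.image code) :: ρ.map enc))).filter
          (fun x => eval univ S a b (tr φ)
            (x :: (t.map encE ++ HF.mk (R.image code) :: ρ.map enc)) ≠ HF.ord 0)).image
          (fun x => eval univ S a b (codeT ((List.range (τ.length + 1)).map .var))
            (x :: (t.map encE ++ HF.mk (R.image code) :: ρ.map enc))))) ↔ _
        have henv : ∀ x : El V, encE x :: (t.map encE ++ HF.mk (R.image code) :: ρ.map enc) =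
            ((x :: t).map Val.el ++ Val.rl R :: ρ).map enc := by
          intro x
          simp only [List.map_append, List.map_cons, List.map_map, List.cons_append]
          rfl
        have hcode : ∀ x ∈ dom V s, eval univ S a b (codeT ((List.range (τ.length + 1)).map .var))
            (encE x :: (t.map encE ++ HF.mk (R.image code) :: ρ.map enc)) = code (x :: t) := by
          intro x _
          rw [henv]
          apply eval_code_var
          have h1 := forall₂_range (x :: t) (Val.rl R :: ρ)
          have h2 : (x :: t).length = τ.length + 1 := by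
            rw [List.length_cons, length_tup ht]
          rw [h2] at h1
          exact h1
        have hsat : ∀ x ∈ dom V s, eval univ S a b (tr φ)
            (encE x :: (t.map encE ++ HF.mk (R.image code) :: ρ.map enc)) =
            HF.tv (Sat S φ ((x :: t).map Val.el ++ Val.rl R :: ρ)) := by
          intro x hx
          rw [henv]
          refine ih _ hφ1 haφ hbφ _ ?_
          have h1 : x :: t ∈ tup V (s :: τ) :=
            Finset.mem_image.2 ⟨(x, t), Finset.mem_product.2 ⟨hx, ht⟩, rfl⟩
          exact List.rel_append (tup_ty h1) (List.Forall₂.cons ⟨R, hR, rfl⟩ hρ)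
        rw [HF.elems_mk, eval_domT, HF.elems_mk]
        simp only [Finset.mem_image, Finset.mem_filter]
        constructor
        · rintro ⟨_, ⟨⟨x, hx, rfl⟩, h1⟩, rfl⟩
          rw [hsat x hx, tv_ne] at h1
          exact ⟨x, hx, h1, hcode x hx⟩
        · rintro ⟨x, hx, h1, rfl⟩
          refine ⟨encE x, ⟨⟨x, hx, rfl⟩, ?_⟩, hcode x hx⟩
          rw [hsat x hx, tv_ne]
          exact h1
      show HF.un (HF.pr (HF.mk (R.image code)) (eval univ S a b (nestT τ
        (.comp (codeT ((List.range (τ.length + 1)).map .var)) (domT s) (tr φ)))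
          (HF.mk (R.image code) :: ρ.map enc))) = _
      unfold HF.un HF.pr
      congr 1
      rw [HF.elems_mk, Finset.biUnion_insert, Finset.singleton_biUnion, HF.elems_mk]
      ext z
      rw [Finset.mem_union, elems_nestT]
      constructor
      · rintro (h | ⟨t, ht, h⟩)
        · obtain ⟨t, ht, rfl⟩ := Finset.mem_image.1 h
          exact Finset.mem_image_of_mem _ (Finset.mem_union_left _ ht)
        · obtain ⟨x, hx, h1, rfl⟩ := (hin t ht z).1 h
          refine Finset.mem_image_of_mem _ (Finset.mem_union_right _ (Finset.mem_filter.2 ⟨?_, h1⟩))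
          exact Finset.mem_image.2 ⟨(x, t), Finset.mem_product.2 ⟨hx, ht⟩, rfl⟩
      · intro h
        obtain ⟨t', ht', rfl⟩ := Finset.mem_image.1 h
        rcases Finset.mem_union.1 ht' with h1 | h1
        · exact Or.inl (Finset.mem_image_of_mem _ h1)
        · right
          obtain ⟨h2, h3⟩ := Finset.mem_filter.1 h1
          obtain ⟨⟨x, t⟩, hxt, rfl⟩ := Finset.mem_image.1 h2
          obtain ⟨hx, ht⟩ := Finset.mem_product.1 hxt
          exact ⟨t, ht, (hin t ht _).2 ⟨x, hx, h3, rfl⟩⟩
    have hiter : ∀ j, (fun x => eval univ S a b u (x :: ρ.map enc))^[j] HF.emp =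
        HF.mk ((F^[j] ∅).image code) := by
      intro j
      induction j with
      | zero => rfl
      | succ j ihj =>
        rw [Function.iterate_succ_apply', Function.iterate_succ_apply', ihj]
        exact hstep _ (infl_sub F _ hD j)
    have hex : ∃ i : ℕ, i ≤ a ∧ (fun x => eval univ S a b u (x :: ρ.map enc))
        ((fun x => eval univ S a b u (x :: ρ.map enc))^[i] HF.emp) =
        (fun x => eval univ S a b u (x :: ρ.map enc))^[i] HF.emp ∧
        ∀ j ≤ i, (HF.tc ((fun x => eval univ S a b u (x :: ρ.map enc))^[j] HF.emp)).card ≤ b := by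
      obtain ⟨i, hi, hfix⟩ := infl_fix F _ hFi hD
      refine ⟨i, ?_, ?_, ?_⟩
      · have h1 := card_tup (V := V) (s :: τ)
        rw [List.length_cons] at h1
        have h2 : (Fintype.card V + 1) ^ (τ.length + 1) ≤ (Fintype.card V + 1) ^ (τ.length + 1) *
          ((τ.length + 1) * (Fintype.card V + 4) + 1) := Nat.le_mul_of_pos_right _ (by omega)
        omega
      · rw [hiter]
        show eval univ S a b u (HF.mk ((F^[i] ∅).image code) :: ρ.map enc) = _
        rw [hstep _ (infl_sub F _ hD i), hfix]
      · intro j _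
        rw [hiter]
        have h1 := card_tc_rel (infl_sub F _ hD j)
        rw [List.length_cons] at h1
        omega
    have hval : ∃ n : ℕ, F (F^[n] ∅) = F^[n] ∅ ∧
        eval univ S a b (.iter u) (ρ.map enc) = HF.mk ((F^[n] ∅).image code) := by
      refine ⟨Nat.find hex, ?_, ?_⟩
      · have h1 := (Nat.find_spec hex).2.1
        rw [hiter] at h1
        have h2 : eval univ S a b u (HF.mk ((F^[Nat.find hex] ∅).image code) :: ρ.map enc) =
          HF.mk ((F^[Nat.find hex] ∅).image code) := h1
        rw [hstep _ (infl_sub F _ hD _)] at h2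
        exact Finset.image_injective code_inj (HF.mk_inj h2)
      · show HF.itr a b (fun x => eval univ S a b u (x :: ρ.map enc)) = _
        rw [HF.itr_def, dif_pos hex, hiter]
    obtain ⟨n, hfix, hn⟩ := hval
    show HF.tv (eval univ S a b (codeT (is.map Tm.var)) (ρ.map enc) ∈
      HF.elems (eval univ S a b (.iter u) (ρ.map enc))) = _
    rw [hn, HF.elems_mk, eval_code_var univ S a b his']
    apply tv_congr
    show code t ∈ (F^[n] ∅).image code ↔ ∃ t : List (El V),
      List.Forall₂ (fun i x => ρ[i]? = some (Val.el x)) is t ∧ ∃ j : ℕ, t ∈ F^[j] ∅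
    constructor
    · intro h
      obtain ⟨t', ht', he⟩ := Finset.mem_image.1 h
      rw [code_inj he] at ht'
      exact ⟨t, his', n, ht'⟩
    · rintro ⟨t', ht', j, hj⟩
      rw [forall₂_unique his' ht']
      apply Finset.mem_image_of_mem
      rcases le_total j n with h | h
      · exact infl_mono F hFi h hj
      · rw [infl_stable F hfix h] at hj
        exact hj

/-- **Every property of finite structures that is definable in fixed point logic with counting is
definable in choiceless polynomial time with counting**: for every sentence there are a term and a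
polynomial bound; with larger bounds for the number of steps and for the size of the stages the same
property is defined. -/
theorem fpc_definable (φ : Fm Γ) (hφ : WT φ []) : ∃ t : Tm Γ, ∃ p : Polynomial ℕ,
    ∀ (V : Type) [Fintype V] (S : Str Γ V) (a b : ℕ), p.eval (Fintype.card V) ≤ a →
      p.eval (Fintype.card V) ≤ b → (Accepts S t a b ↔ Sat S φ []) := by
  refine ⟨tr φ, bp φ, fun V _ S a b ha hb => ?_⟩
  show eval univ S a b (tr φ) [] = HF.ord 1 ↔ _
  have h := eval_tr S a b φ [] hφ ha hb [] List.Forall₂.nil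
  rw [List.map_nil] at h
  rw [h, tv_eq]

end Pool.Agent.CPTS.FPC
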