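import Pool.Agent.CPT.At

/-!
# Sanity check: the parity of the number of vertices is definable in choiceless polynomial time

The term iterates `x ↦ x + 2` on von Neumann ordinals, starting from `∅ = 0`, as long as
`x + 1 < n`, and compares the fixed point with `n`. At most `n` steps and stages of size `n + 1` are
enough.
-/

set_option autoImplicit false

namespace Pool.Agent.CPTS.Par

open Finset Classical Pool.Agent.CPT

/-- the successor of a set: `t ∪ {t}` -/
def sucT {Γ : Voc} (t : Tm Γ) : Tm Γ := .union (.pair t (.pair t t))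

/-- the number of atoms -/
def numT {Γ : Voc} : Tm Γ := .card .atoms

/-- one step: `x ∪ {z ∈ x + 2 : x + 1 ∈ n}` -/
def stepT {Γ : Voc} : Tm Γ :=
  .union (.pair (.var 0) (.comp (.var 0) (sucT (sucT (.var 0))) (.mem (sucT (.var 1)) numT)))

/-- the number of atoms is even -/
def parT {Γ : Voc} : Tm Γ := .eq (.iter stepT) numT

variable {A : Type}

theorem ord_ne : (HF.ord 1 : HF A) ≠ HF.ord 0 := fun h => by
  have := HF.ord_inj h
  omega

theorem tv_ne {p : Prop} : (HF.tv p : HF A) ≠ HF.ord 0 ↔ p := by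
  unfold HF.tv
  split_ifs with h
  · exact iff_of_true ord_ne h
  · exact iff_of_false (fun h' => h' rfl) h

theorem tv_eq {p : Prop} : (HF.tv p : HF A) = HF.ord 1 ↔ p := by
  unfold HF.tv
  split_ifs with h
  · exact iff_of_true rfl h
  · exact iff_of_false (fun h' => ord_ne h'.symm) h

theorem mk_elems_ord (n : ℕ) : HF.mk (HF.elems (HF.ord n : HF A)) = HF.ord n := by
  rw [HF.elems_ord, ← HF.ord_eq_mk]

theorem un_pr_suc (n : ℕ) :
    HF.un (HF.pr (HF.ord n : HF A) (HF.pr (HF.ord n) (HF.ord n))) = HF.ord (n + 1) := by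
  rw [HF.ord_succ]
  unfold HF.un HF.pr
  congr 1
  ext x
  simp only [HF.elems_mk, mem_biUnion, mem_insert, mem_singleton, or_self, exists_eq_or_imp,
    exists_eq_left]
  tauto

theorem eval_suc {Γ : Voc} (U : Finset A) (S : Str Γ A) (a b : ℕ) (t : Tm Γ) (ρ : List (HF A))
    (n : ℕ) (h : eval U S a b t ρ = HF.ord n) : eval U S a b (sucT t) ρ = HF.ord (n + 1) := by
  show HF.un (HF.pr (eval U S a b t ρ) (HF.pr (eval U S a b t ρ) (eval U S a b t ρ))) = _
  rw [h, un_pr_suc]

theorem atom_inj : Function.Injective (HF.atom : A → HF A) := fun _ _ h => HF.atom_inj h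

theorem eval_num {Γ : Voc} (U : Finset A) (S : Str Γ A) (a b : ℕ) (ρ : List (HF A)) :
    eval U S a b numT ρ = HF.ord U.card := by
  show HF.ord (HF.elems (HF.mk (U.image HF.atom))).card = _
  rw [HF.elems_mk, card_image_of_injective _ atom_inj]

theorem ord_mem_iff {m n : ℕ} : (HF.ord m : HF A) ∈ HF.elems (HF.ord n) ↔ m < n := by
  rw [HF.elems_ord, mem_image]
  constructor
  · rintro ⟨i, hi, h⟩
    rw [HF.ord_inj h] at hi
    exact mem_range.1 hi
  · intro h
    exact ⟨m, mem_range.2 h, rfl⟩

/-- the number reached after one step -/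
def nxt (n m : ℕ) : ℕ := if m + 1 < n then m + 2 else m

theorem eval_step {Γ : Voc} (U : Finset A) (S : Str Γ A) (a b : ℕ) (ρ : List (HF A)) (m : ℕ) :
    eval U S a b stepT (HF.ord m :: ρ) = HF.ord (nxt U.card m) := by
  have h2 : eval U S a b (sucT (sucT (.var 0))) (HF.ord m :: ρ) = HF.ord (m + 2) :=
    eval_suc _ _ _ _ _ _ _ (eval_suc _ _ _ _ _ _ _ rfl)
  have hc : ∀ z : HF A, eval U S a b (.mem (sucT (.var 1)) numT) (z :: HF.ord m :: ρ) ≠ HF.ord 0 ↔
      m + 1 < U.card := by
    intro z
    show (HF.tv (eval U S a b (sucT (.var 1)) (z :: HF.ord m :: ρ) ∈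
      HF.elems (eval U S a b numT (z :: HF.ord m :: ρ))) : HF A) ≠ HF.ord 0 ↔ _
    rw [tv_ne, eval_num, eval_suc U S a b (.var 1) (z :: HF.ord m :: ρ) m rfl, ord_mem_iff]
  have hcomp : eval U S a b (.comp (.var 0) (sucT (sucT (.var 0))) (.mem (sucT (.var 1)) numT))
      (HF.ord m :: ρ) = if m + 1 < U.card then HF.ord (m + 2) else HF.ord 0 := by
    show HF.mk (((HF.elems (eval U S a b (sucT (sucT (.var 0))) (HF.ord m :: ρ))).filter
      (fun x => eval U S a b (.mem (sucT (.var 1)) numT) (x :: HF.ord m :: ρ) ≠ HF.ord 0)).image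
      (fun x => x)) = _
    rw [h2, image_id']
    simp only [hc]
    split_ifs with h
    · rw [filter_true_of_mem (fun _ _ => h), mk_elems_ord]
    · rw [filter_false_of_mem (fun _ _ => h)]; rfl
  show HF.un (HF.pr (HF.ord m) (eval U S a b (.comp (.var 0) (sucT (sucT (.var 0)))
    (.mem (sucT (.var 1)) numT)) (HF.ord m :: ρ))) = _
  rw [hcomp]
  unfold nxt
  split_ifs with h
  · rw [← mk_elems_ord (m + 2)]
    unfold HF.un HF.pr
    congr 1
    ext x
    simp only [HF.elems_mk, mem_biUnion, mem_insert, mem_singleton, exists_eq_or_imp,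
      exists_eq_left]
    rw [or_iff_right_iff_imp]
    intro hx
    rw [HF.elems_ord, mem_image] at hx ⊢
    obtain ⟨i, hi, rfl⟩ := hx
    exact ⟨i, mem_range.2 (by have := mem_range.1 hi; omega), rfl⟩
  · rw [← mk_elems_ord m]
    unfold HF.un HF.pr
    congr 1
    ext x
    simp only [HF.elems_mk, mem_biUnion, mem_insert, mem_singleton, exists_eq_or_imp,
      exists_eq_left]
    rw [or_iff_left_iff_imp]
    intro hx
    rw [HF.elems_ord, range_zero, image_empty] at hx
    exact absurd hx (notMem_empty _)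

theorem nxt_iterate (n i : ℕ) : (nxt n)^[i] 0 = min (2 * i) (2 * (n / 2)) := by
  induction i with
  | zero => simp
  | succ i ih =>
    rw [Function.iterate_succ_apply', ih]
    unfold nxt
    split_ifs with h <;> omega

theorem nxt_fix {n i : ℕ} (h : nxt n ((nxt n)^[i] 0) = (nxt n)^[i] 0) :
    (nxt n)^[i] 0 = 2 * (n / 2) := by
  rw [nxt_iterate] at h ⊢
  unfold nxt at h
  split_ifs at h with h' <;> omega

theorem card_tc_ord (n : ℕ) : (HF.tc (HF.ord n : HF A)).card ≤ n + 1 := by
  have h : ∀ z ∈ HF.tc (HF.ord n : HF A), z ∈ (Finset.range (n + 1)).image HF.ord := by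
    refine HF.tc_ind (x := HF.ord n) (P := fun z => z ∈ (Finset.range (n + 1)).image HF.ord) ?_ ?_
    · exact mem_image_of_mem _ (mem_range.2 (by omega))
    · intro y _ hy z hz
      rw [mem_image] at hy ⊢
      obtain ⟨i, hi, rfl⟩ := hy
      rw [HF.elems_ord, mem_image] at hz
      obtain ⟨j, hj, rfl⟩ := hz
      exact ⟨j, mem_range.2 (by have := mem_range.1 hi; have := mem_range.1 hj; omega), rfl⟩
  calc (HF.tc (HF.ord n : HF A)).card ≤ ((Finset.range (n + 1)).image HF.ord).card :=
        card_le_card h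
    _ ≤ (Finset.range (n + 1)).card := card_image_le
    _ = n + 1 := card_range _

theorem eval_iter {Γ : Voc} (U : Finset A) (S : Str Γ A) (a b : ℕ) (ρ : List (HF A))
    (ha : U.card ≤ a) (hb : U.card + 1 ≤ b) :
    eval U S a b (.iter stepT) ρ = HF.ord (2 * (U.card / 2)) := by
  set n := U.card with hn
  set f : HF A → HF A := fun x => eval U S a b stepT (x :: ρ) with hf
  have hit : ∀ i : ℕ, f^[i] HF.emp = HF.ord ((nxt n)^[i] 0) := by
    intro i
    induction i with
    | zero => rfl
    | succ i ih =>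
      rw [Function.iterate_succ_apply', Function.iterate_succ_apply', ih]
      exact eval_step U S a b ρ _
  have hfix : ∀ i : ℕ, f (f^[i] HF.emp) = f^[i] HF.emp ↔
      nxt n ((nxt n)^[i] 0) = (nxt n)^[i] 0 := by
    intro i
    rw [hit]
    have : f (HF.ord ((nxt n)^[i] 0)) = HF.ord (nxt n ((nxt n)^[i] 0)) := eval_step U S a b ρ _
    rw [this]
    exact HF.ord_inj.eq_iff
  have hex : ∃ i : ℕ, i ≤ a ∧ f (f^[i] HF.emp) = f^[i] HF.emp ∧
      ∀ j ≤ i, HF.size (f^[j] HF.emp) ≤ b := by
    refine ⟨n / 2, by omega, ?_, ?_⟩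
    · rw [hfix, nxt_iterate, min_self]
      unfold nxt
      split_ifs with h
      · omega
      · rfl
    · intro j _
      rw [hit, nxt_iterate, HF.size_eq]
      refine (card_tc_ord _).trans ?_
      omega
  show HF.itr a b f = _
  unfold HF.itr
  rw [dif_pos hex, hit]
  congr 1
  exact nxt_fix ((hfix _).1 (Nat.find_spec hex).2.1)

/-- the parity of the number of elements is definable, over every vocabulary -/
theorem accepts_par {Γ : Voc} {V : Type} [Fintype V] (S : Str Γ V) (a b : ℕ)
    (ha : Fintype.card V ≤ a) (hb : Fintype.card V + 1 ≤ b) :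
    Accepts S parT a b ↔ Even (Fintype.card V) := by
  show (HF.tv (eval univ S a b (.iter stepT) [] = eval univ S a b numT []) : HF V) = HF.ord 1 ↔ _
  rw [tv_eq, eval_num, eval_iter _ _ _ _ _ (by rw [card_univ]; exact ha)
    (by rw [card_univ]; exact hb), HF.ord_inj.eq_iff, card_univ, Nat.even_iff]
  omega

/-- parity of the number of vertices of a (coloured) graph is definable in choiceless polynomial
time, with at most `n` steps and stages of size `n + 1` -/
theorem parity_definable : ∃ t : Tm GrV, ∀ (V : Type) [Fintype V] (G : SimpleGraph V) (c : V → ℕ)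
    (a b : ℕ), Fintype.card V ≤ a → Fintype.card V + 1 ≤ b →
      (Accepts (grStr G.Adj c) t a b ↔ Even (Fintype.card V)) :=
  ⟨parT, fun _ _ _ _ a b ha hb => accepts_par _ a b ha hb⟩

end Pool.Agent.CPTS.Par
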